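import Pool.Agent.Lib.Pbbea99.Combine

/-!
# MP_bbea99_co: thresholds
-/

namespace MPbbea99

open Finset

/-- `w` encounters `y^r` in the Abelian sense: some factor of `w` has the form `u v u'` with
`u'` a rearrangement of `u` and `|uvu| / |uv| = r`. -/
def Encounters {α : Type*} (w : List α) (r : ℝ) : Prop :=
  ∃ u v u' : List α, (u ++ v ++ u') <:+: w ∧ u.Perm u' ∧
    ((u ++ v ++ u).length : ℝ) / ((u ++ v).length : ℝ) = r

/-- the words over an `n`-letter alphabet that encounter no `y^r` with `r ≥ s`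
(exponents `r` range over `(1,2]`) -/
def AvoidSet (s : ℝ) (n : ℕ) : Set (List (Fin n)) :=
  {w | ∀ r : ℝ, s ≤ r → 1 < r → r ≤ 2 → ¬ Encounters w r}

/-- the statement `𝒜(s,n)` -/
def Avoid (s : ℝ) (n : ℕ) : Prop := (AvoidSet s n).Infinite

/-- the Abelian repetitive threshold -/
noncomputable def ART (n : ℕ) : ℝ := sInf {s : ℝ | Avoid s n}

/-- the dual threshold (a minimum of natural numbers) -/
noncomputable def DART (r : ℝ) : ℕ := sInf {n : ℕ | Avoid r n}

lemma Avoid.mono {s s' : ℝ} {n : ℕ} (h : Avoid s n) (hs : s ≤ s') : Avoid s' n := by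
  apply Set.Infinite.mono _ h
  intro w hw r h1 h2 h3
  exact hw r (hs.trans h1) h2 h3

/-- the main construction -/
theorem avoid_main (E e n : ℕ) (hE3 : 3 ≤ E) (hEe : E ≤ 2 ^ e) (hn : E + 63 * e + 328 ≤ n) :
    Avoid (1 + 1 / (E : ℝ)) n := by
  classical
  unfold Avoid
  apply Set.Infinite.of_image List.length
  apply Set.Infinite.mono (s := Set.univ) _ Set.infinite_univ
  intro N _
  obtain ⟨w, hwN, hw⟩ := exists_good' e E hEe (by omega) N
  have hJ0 : 0 < e + 5 := by omega
  let x0 : Fin (E + 12 * e + 73) := ⟨0, by omega⟩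
  let W := W0 E (e + 5) hJ0 (fun k => w.getD k x0)
  have hcard : Fintype.card (Fin (E + 12 * e + 73) ⊕ (Fin (e + 5) × Fin 17 × Fin 3)) ≤
      Fintype.card (Fin n) := by
    simp only [Fintype.card_sum, Fintype.card_prod, Fintype.card_fin]
    omega
  obtain ⟨f⟩ := Function.Embedding.nonempty_of_card_le hcard
  let V : ℕ → Fin n := fun i => f (W i)
  refine ⟨(List.range N).map V, ?_, by simp⟩
  rintro r hr1 hr2 hr3 ⟨u, v, u', ⟨s, t, hst⟩, hperm, hlen⟩
  have hul : u'.length = u.length := hperm.length_eq.symm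
  -- lengths
  have htot : s.length + (u.length + v.length + u.length) + t.length = N := by
    have := congrArg List.length hst
    simp only [List.length_append, List.length_map, List.length_range, hul] at this
    omega
  set A := s.length with hA
  set m := u.length with hm
  set p := m + v.length with hp
  -- exponent bounds
  have hlen' : ((p : ℝ) + m) / p = r := by
    rw [← hlen]
    simp only [List.length_append, hp, ← hm]
    push_cast
    ring
  have hp0 : (0 : ℝ) < p := by
    rcases Nat.eq_zero_or_pos p with h0 | h0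
    · rw [h0] at hlen'
      simp only [Nat.cast_zero, div_zero] at hlen'
      linarith
    · exact_mod_cast h0
  have hE0 : (0 : ℝ) < E := by
    have : 0 < E := by omega
    exact_mod_cast this
  have hr : r = 1 + m / p := by
    rw [← hlen']
    field_simp
  have hm1 : 1 ≤ m := by
    rcases Nat.eq_zero_or_pos m with h0 | h0
    · rw [h0] at hr
      simp at hr
      linarith
    · exact h0
  have hpE : p ≤ m * E := by
    have h1 : 1 / (E : ℝ) ≤ m / p := by linarith
    rw [div_le_div_iff₀ hE0 hp0] at h1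
    have h2 : (p : ℝ) ≤ m * E := by linarith
    exact_mod_cast h2
  -- windows
  have hu : ∀ i (hi : i < m), u[i]'hi = V (A + i) := by
    intro i hi
    have h1 : (s ++ (u ++ v ++ u') ++ t)[A + i]? = ((List.range N).map V)[A + i]? := by rw [hst]
    rw [List.append_assoc, List.getElem?_append_right (by omega)] at h1
    have e : A + i - s.length = i := by omega
    rw [e, List.append_assoc, List.append_assoc, List.getElem?_append_left hi] at h1
    rw [List.getElem?_eq_getElem hi] at h1
    rw [List.getElem?_map, List.getElem?_range (by omega)] at h1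
    simpa using h1
  have hu' : ∀ i (hi : i < m), u'[i]'(by omega) = V (A + p + i) := by
    intro i hi
    have h1 : (s ++ (u ++ v ++ u') ++ t)[A + p + i]? = ((List.range N).map V)[A + p + i]? := by
      rw [hst]
    rw [List.append_assoc, List.getElem?_append_right (by omega)] at h1
    have e : A + p + i - s.length = p + i := by omega
    rw [e, List.append_assoc, List.getElem?_append_right (by
      rw [List.length_append]; omega)] at h1
    have e2 : p + i - (u ++ v).length = i := by rw [List.length_append]; omega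
    rw [e2, List.getElem?_append_left (by omega)] at h1
    rw [List.getElem?_eq_getElem (by omega)] at h1
    rw [List.getElem?_map, List.getElem?_range (by omega)] at h1
    simpa using h1
  have hcount : ∀ (l : List (Fin n)) (B : ℕ) (hl : ∀ i (hi : i < l.length), l[i] = V (B + i))
      (c : Fin n), l.count c = cnt (fun i => V i = c) B (B + l.length) := by
    intro l
    induction l with
    | nil => intro B _ c; simp [cnt_self]
    | cons x l ih =>
      intro B hl c
      have h1 : ∀ i (hi : i < l.length), l[i] = V (B + 1 + i) := by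
        intro i hi
        have := hl (i + 1) (by simp; omega)
        simp only [List.getElem_cons_succ] at this
        rw [this]
        congr 1
        ring
      have h2 := ih (B + 1) h1 c
      have h3 := hl 0 (by simp)
      simp only [List.getElem_cons_zero, Nat.add_zero] at h3
      rw [List.count_cons, h2, List.length_cons,
        cnt_add (fun i => V i = c) (a := B) (b := B + 1) (c := B + (l.length + 1)) (by omega)
          (by omega), cnt_succ_right _ (le_refl B), cnt_self, ← h3]
      have e : B + 1 + l.length = B + (l.length + 1) := by ring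
      rw [e, Nat.add_comm, Nat.zero_add]
      congr 1
      by_cases hc : x = c
      · simp [hc]
      · simp [hc]
  apply window_lemma E e (e + 5) hE3 rfl hJ0 hEe w x0 hw A m p hm1 (by omega) hpE (by omega)
  intro c
  have h1 := hcount u A (fun i hi => hu i hi) (f c)
  have h2 := hcount u' (A + p) (fun i hi => hu' i (by omega)) (f c)
  rw [hperm.count_eq (f c), h2, hul] at h1
  have h3 : ∀ a b, cnt (fun i => W i = c) a b = cnt (fun i => V i = f c) a b := by
    intro a b
    apply cnt_congr
    intro k _ _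
    exact (f.injective.eq_iff).symm
  rw [h3, h3]
  exact h1.symm

/-- pigeonhole: words avoiding `y^r`, `r ≥ s`, with `s ≤ 1 + 1/n` are short -/
theorem not_avoid (s : ℝ) (n : ℕ) (hs : (n : ℝ) * (s - 1) ≤ 1) : ¬ Avoid s n := by
  unfold Avoid
  rw [Set.not_infinite]
  have hfin : {w : List (Fin n) | w.length < n + 1}.Finite := List.finite_length_lt (Fin n) (n + 1)
  apply hfin.subset
  intro w hw
  simp only [Set.mem_ofPred_eq]
  by_contra hlen
  push Not at hlen
  -- two equal letters among the first n+1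
  obtain ⟨i, j, hij, hne⟩ := Fintype.exists_ne_map_eq_of_card_lt
    (fun i : Fin (n + 1) => w[i.val]'(by omega)) (by simp)
  wlog hlt : i.val < j.val generalizing i j with H
  · apply H j i hij.symm hne.symm
    have : i.val ≠ j.val := fun h => hij (Fin.ext h)
    omega
  have hi := i.isLt
  have hj := j.isLt
  set d := j.val - i.val with hd
  have hd0 : (0 : ℝ) < d := by
    have : 0 < d := by omega
    exact_mod_cast this
  have hdn : (d : ℝ) ≤ n := by
    have : d ≤ n := by omega
    exact_mod_cast this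
  apply hw (1 + 1 / d)
  · have h1 : 1 / (n : ℝ) ≤ 1 / d := one_div_le_one_div_of_le hd0 hdn
    have hn0 : (0 : ℝ) < n := by linarith
    have h2 : s - 1 ≤ 1 / n := by
      rw [le_div_iff₀ hn0]
      linarith
    linarith
  · have : 0 < 1 / (d : ℝ) := by positivity
    linarith
  · have h1 : (1 : ℝ) ≤ d := by
      have : 1 ≤ d := by omega
      exact_mod_cast this
    have : 1 / (d : ℝ) ≤ 1 := by
      rw [div_le_one hd0]
      exact h1
    linarith
  · refine ⟨[w[i.val]'(by omega)], (w.drop (i.val + 1)).take (d - 1), [w[j.val]'(by omega)],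
      ?_, ?_, ?_⟩
    · refine ⟨w.take i.val, w.drop (j.val + 1), ?_⟩
      have e1 : w.drop i.val = w[i.val]'(by omega) :: w.drop (i.val + 1) :=
        List.drop_eq_getElem_cons (by omega)
      have e2 : w.drop (i.val + 1) = (w.drop (i.val + 1)).take (d - 1) ++ w.drop j.val := by
        conv_lhs => rw [← List.take_append_drop (d - 1) (w.drop (i.val + 1)), List.drop_drop]
        congr 2
        omega
      have e3 : w.drop j.val = w[j.val]'(by omega) :: w.drop (j.val + 1) :=
        List.drop_eq_getElem_cons (by omega)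
      calc w.take i.val ++ ([w[i.val]'(by omega)] ++ (w.drop (i.val + 1)).take (d - 1) ++
            [w[j.val]'(by omega)]) ++ w.drop (j.val + 1)
          = w.take i.val ++ (w[i.val]'(by omega) :: ((w.drop (i.val + 1)).take (d - 1) ++
            (w[j.val]'(by omega) :: w.drop (j.val + 1)))) := by simp
        _ = w.take i.val ++ w.drop i.val := by rw [← e3, ← e2, ← e1]
        _ = w := List.take_append_drop _ _
    · rw [hne]
    · have hl : ((w.drop (i.val + 1)).take (d - 1)).length = d - 1 := by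
        rw [List.length_take, List.length_drop]
        omega
      simp only [List.length_append, List.length_singleton, hl]
      have e : 1 + (d - 1) = d := by omega
      rw [e]
      push_cast
      field_simp

lemma avoid_of_two_lt {s : ℝ} (hs : 2 < s) {n : ℕ} (hn : 1 ≤ n) : Avoid s n := by
  have : AvoidSet s n = Set.univ := by
    ext w
    simp only [AvoidSet, Set.mem_ofPred_eq, Set.mem_univ, iff_true]
    intro r h1 h2 h3
    linarith
  unfold Avoid
  rw [this]
  have : Nonempty (Fin n) := ⟨⟨0, by omega⟩⟩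
  exact Set.infinite_univ

lemma bddBelow_avoid {n : ℕ} (hn : 1 ≤ n) : ∀ s ∈ {s : ℝ | Avoid s n}, 1 + 1 / (n : ℝ) ≤ s := by
  intro s hs
  by_contra hlt
  push Not at hlt
  refine not_avoid s n ?_ hs
  have hn0 : (0 : ℝ) < n := by exact_mod_cast hn
  have h1 : s - 1 < 1 / n := by linarith
  rw [lt_div_iff₀ hn0] at h1
  linarith

lemma ART_lower {n : ℕ} (hn : 1 ≤ n) : 1 + 1 / (n : ℝ) ≤ ART n := by
  apply le_csInf
  · exact ⟨3, avoid_of_two_lt (by norm_num) hn⟩
  · exact bddBelow_avoid hn

lemma ART_le_of_avoid {n : ℕ} (hn : 1 ≤ n) {s : ℝ} (h : Avoid s n) : ART n ≤ s :=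
  csInf_le ⟨_, bddBelow_avoid hn⟩ h

lemma ART_le_two {n : ℕ} (hn : 1 ≤ n) : ART n ≤ 2 := by
  apply le_of_forall_pos_le_add
  intro ε hε
  exact ART_le_of_avoid hn (avoid_of_two_lt (by linarith) hn)

/-- clean numerical form: if `n ≥ E + 63 (log₂ E + 1) + 328` then `ART n ≤ 1 + 1/E` -/
lemma avoid_log (E n : ℕ) (hE3 : 3 ≤ E) (hn : E + 63 * (Nat.log 2 E + 1) + 328 ≤ n) :
    Avoid (1 + 1 / (E : ℝ)) n := by
  apply avoid_main E (Nat.log 2 E + 1) n hE3 _ hn
  exact (Nat.lt_pow_succ_log_self (by norm_num) E).le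

lemma natlog_le (E : ℕ) (hE : 1 ≤ E) : (Nat.log 2 E : ℝ) ≤ 2 * Real.log E := by
  have h1 : (2 : ℝ) ^ (Nat.log 2 E) ≤ E := by
    exact_mod_cast Nat.pow_log_le_self 2 (by omega : E ≠ 0)
  have h2 : (Nat.log 2 E : ℝ) * Real.log 2 ≤ Real.log E := by
    rw [← Real.log_pow]
    exact Real.log_le_log (by positivity) h1
  have h3 : (1 / 2 : ℝ) ≤ Real.log 2 := by
    have := Real.log_two_gt_d9
    linarith
  have h4 : (0 : ℝ) ≤ (Nat.log 2 E : ℝ) := Nat.cast_nonneg _
  nlinarith

lemma pow_aux (k : ℕ) : 2 * (63 * ((k + 12) + 1) + 328) ≤ 2 ^ (k + 12) := by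
  induction k with
  | zero => norm_num
  | succ k ih =>
    have h1 : (2 : ℕ) ^ (k + 1 + 12) = 2 * 2 ^ (k + 12) := by rw [← pow_succ']
    rw [h1]
    generalize (2 : ℕ) ^ (k + 12) = y at ih
    linarith

lemma frac_aux (n E L lg : ℝ) (hn0 : 0 < n) (hE0 : 0 < E) (hlogn : 1 / 2 ≤ lg)
    (hsub : E = n - (63 * (L + 1) + 328)) (hL : L ≤ 2 * lg) (h5 : n ≤ 2 * E) :
    1 / E - 1 / n ≤ 33554432 * lg / n ^ 2 := by
  rw [div_sub_div _ _ hE0.ne' hn0.ne', div_le_div_iff₀ (by positivity) (by positivity)]
  have h3 : (1 : ℝ) * n - E * 1 = 63 * (L + 1) + 328 := by rw [hsub]; ring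
  rw [h3]
  have h4 : (63 * (L + 1) + 328) ≤ 1024 * lg := by linarith
  have hlg : 0 ≤ lg := by linarith
  calc (63 * (L + 1) + 328) * n ^ 2
      ≤ (1024 * lg) * n ^ 2 := by gcongr
    _ = (1024 * lg) * n * n := by ring
    _ ≤ (1024 * lg) * (2 * E) * n := by gcongr
    _ = (2048 * lg) * (E * n) := by ring
    _ ≤ 33554432 * lg * (E * n) := by
        have : 0 ≤ lg * (E * n) := by positivity
        nlinarith

/-- upper bound for `ART n`, all `n ≥ 2` -/
lemma ART_upper : ∃ C : ℝ, 0 < C ∧ ∀ n : ℕ, 2 ≤ n →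
    ART n ≤ 1 + 1 / (n : ℝ) + C * Real.log n / (n : ℝ) ^ 2 := by
  -- threshold from which `63 (log₂ n + 1) + 328 ≤ n / 2`
  refine ⟨33554432, by norm_num, ?_⟩
  intro n hn2
  have hn0 : (0 : ℝ) < n := by
    have : 0 < n := by omega
    exact_mod_cast this
  have hlog2 : (1 / 2 : ℝ) ≤ Real.log 2 := by
    have := Real.log_two_gt_d9
    linarith
  have hlogn : (1 / 2 : ℝ) ≤ Real.log n := by
    refine hlog2.trans (Real.log_le_log (by norm_num) ?_)
    exact_mod_cast hn2
  by_cases hbig : n < 4096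
  · have h1 := ART_le_two (n := n) (by omega)
    have h2 : (1 : ℝ) ≤ 33554432 * Real.log n / (n : ℝ) ^ 2 := by
      rw [le_div_iff₀ (by positivity)]
      have h3 : (n : ℝ) ≤ 4096 := by exact_mod_cast hbig.le
      nlinarith
    have h3 : (0 : ℝ) ≤ 1 / n := by positivity
    linarith
  · push Not at hbig
    obtain ⟨L, hL⟩ : ∃ L, L = Nat.log 2 n := ⟨_, rfl⟩
    -- L + 1 ≤ ...
    have hLn : 63 * (L + 1) + 328 ≤ n / 2 := by
      have h1 : 2 ^ L ≤ n := by rw [hL]; exact Nat.pow_log_le_self 2 (by omega)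
      have hL12 : 12 ≤ L := by
        rw [hL]
        exact Nat.le_log_of_pow_le (by norm_num) (by norm_num; omega)
      have h3 := pow_aux (L - 12)
      have e : L - 12 + 12 = L := by omega
      rw [e] at h3
      omega
    obtain ⟨E, hE⟩ : ∃ E, E = n - (63 * (L + 1) + 328) := ⟨_, rfl⟩
    have hEn : E ≤ n := by omega
    have hE2 : n ≤ 2 * E := by omega
    have hlogE : Nat.log 2 E ≤ L := by rw [hL]; exact Nat.log_mono_right hEn
    have hav := avoid_log E n (by omega) (by omega)
    have h1 := ART_le_of_avoid (by omega) hav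
    have hE0 : (0 : ℝ) < E := by
      have : 0 < E := by omega
      exact_mod_cast this
    have hsub : (E : ℝ) = n - (63 * (L + 1) + 328) := by
      have : E + (63 * (L + 1) + 328) = n := by omega
      have h2 : ((E + (63 * (L + 1) + 328) : ℕ) : ℝ) = n := by rw [this]
      push_cast at h2
      linarith
    have hLlog : (L : ℝ) ≤ 2 * Real.log n := by rw [hL]; exact natlog_le n (by omega)
    have h5 : (n : ℝ) ≤ 2 * E := by exact_mod_cast hE2
    have h2 := frac_aux n E L (Real.log n) hn0 hE0 hlogn hsub hLlog h5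
    linarith

lemma DART_nonempty {r : ℝ} (hr1 : 1 < r) : ∃ n, Avoid r n := by
  obtain ⟨E, hE⟩ := exists_nat_ge (max 3 (1 / (r - 1)))
  have hE3 : 3 ≤ E := by
    have : (3 : ℝ) ≤ E := (le_max_left _ _).trans hE
    exact_mod_cast this
  have hEr : 1 / (r - 1) ≤ E := (le_max_right _ _).trans hE
  refine ⟨_, (avoid_log E _ hE3 le_rfl).mono ?_⟩
  have h0 : 0 < r - 1 := by linarith
  have hE0 : (0 : ℝ) < E := by
    have : 0 < E := by omega
    exact_mod_cast this
  rw [div_le_iff₀ h0] at hEr
  have : 1 / (E : ℝ) ≤ r - 1 := by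
    rw [div_le_iff₀ hE0]
    linarith
  linarith

/-- the minimum in the definition of `DART` is attained -/
lemma DART_mem {r : ℝ} (hr1 : 1 < r) : Avoid r (DART r) := by
  have h : ({n : ℕ | Avoid r n}).Nonempty := DART_nonempty hr1
  exact Nat.sInf_mem h

lemma DART_lower {r : ℝ} (hr1 : 1 < r) : 1 / (r - 1) < DART r := by
  have h0 : 0 < r - 1 := by linarith
  by_contra hlt
  push Not at hlt
  refine not_avoid r (DART r) ?_ (DART_mem hr1)
  rw [le_div_iff₀ h0] at hlt
  exact hlt

lemma DART_upper : ∃ C : ℝ, 0 < C ∧ ∀ r : ℝ, 1 < r → r ≤ 2 →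
    (DART r : ℝ) ≤ 1 / (r - 1) + C * (1 + Real.log (1 / (r - 1))) := by
  refine ⟨1024, by norm_num, ?_⟩
  intro r hr1 hr2
  have h0 : 0 < r - 1 := by linarith
  obtain ⟨x, hx⟩ : ∃ x : ℝ, x = 1 / (r - 1) := ⟨_, rfl⟩
  have hx1 : 1 ≤ x := by
    rw [hx, le_div_iff₀ h0]
    linarith
  rw [← hx]
  obtain ⟨E, hE⟩ : ∃ E : ℕ, E = ⌈x⌉₊ + 2 := ⟨_, rfl⟩
  have hceil : x ≤ ⌈x⌉₊ := Nat.le_ceil x
  have hceil2 : (⌈x⌉₊ : ℝ) < x + 1 := Nat.ceil_lt_add_one (by linarith)
  have hE3 : 3 ≤ E := by
    have : 1 ≤ ⌈x⌉₊ := Nat.one_le_ceil_iff.2 (by linarith)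
    omega
  have hEr : (E : ℝ) = ⌈x⌉₊ + 2 := by rw [hE]; push_cast; ring
  have hE0 : (0 : ℝ) < E := by
    have : 0 < E := by omega
    exact_mod_cast this
  have hav : Avoid r (E + 63 * (Nat.log 2 E + 1) + 328) := by
    refine (avoid_log E _ hE3 le_rfl).mono ?_
    have h1 : x ≤ E := by rw [hEr]; linarith
    rw [hx, div_le_iff₀ h0] at h1
    have : 1 / (E : ℝ) ≤ r - 1 := by
      rw [div_le_iff₀ hE0]
      linarith
    linarith
  have hle : DART r ≤ E + 63 * (Nat.log 2 E + 1) + 328 := Nat.sInf_le hav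
  have hle' : (DART r : ℝ) ≤ E + 63 * (Nat.log 2 E + 1) + 328 := by exact_mod_cast hle
  have hlogE := natlog_le E (by omega)
  have h4x : (E : ℝ) ≤ 4 * x := by rw [hEr]; linarith
  have hlog4 : Real.log E ≤ Real.log 4 + Real.log x := by
    rw [← Real.log_mul (by norm_num) (by linarith)]
    exact Real.log_le_log hE0 h4x
  have hlog4' : Real.log 4 ≤ 2 := by
    have h1 : Real.log 4 = 2 * Real.log 2 := by
      rw [← Real.log_rpow (by norm_num)]
      norm_num
    have := Real.log_two_lt_d9
    linarith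
  have hlogx : 0 ≤ Real.log x := Real.log_nonneg hx1
  linarith

/-- **Main theorem.** -/
theorem main :
    (∀ E : ℕ, 3 ≤ E → Avoid (1 + 1 / (E : ℝ)) (E + 63 * Nat.log 2 E + 391)) ∧
    ∃ C : ℝ, 0 < C ∧
      (∀ n : ℕ, 2 ≤ n → 1 + 1 / (n : ℝ) ≤ ART n ∧
        ART n ≤ 1 + 1 / (n : ℝ) + C * Real.log n / (n : ℝ) ^ 2) ∧
      (∀ r : ℝ, 1 < r → r ≤ 2 → Avoid r (DART r) ∧ 1 / (r - 1) < DART r ∧
        (DART r : ℝ) ≤ 1 / (r - 1) + C * (1 + Real.log (1 / (r - 1)))) := by
  refine ⟨fun E hE => avoid_log E _ hE (by omega), ?_⟩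
  obtain ⟨C1, h1, h2⟩ := ART_upper
  obtain ⟨C2, h3, h4⟩ := DART_upper
  refine ⟨max C1 C2, lt_max_of_lt_left h1, ?_, ?_⟩
  · intro n hn
    refine ⟨ART_lower (by omega), (h2 n hn).trans ?_⟩
    have hlog : 0 ≤ Real.log n := Real.log_natCast_nonneg n
    have : C1 ≤ max C1 C2 := le_max_left _ _
    gcongr
  · intro r hr1 hr2
    refine ⟨DART_mem hr1, DART_lower hr1, (h4 r hr1 hr2).trans ?_⟩
    have h0 : 0 < r - 1 := by linarith
    have hx1 : 1 ≤ 1 / (r - 1) := by
      rw [le_div_iff₀ h0]
      linarith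
    have hlog : 0 ≤ Real.log (1 / (r - 1)) := Real.log_nonneg hx1
    have : C2 ≤ max C1 C2 := le_max_right _ _
    gcongr

end MPbbea99
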