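import Mathlib

/-!
# MP_bbea99_co: the counting part

Words are lists whose newest letter is the head.  `Viol w l q` says that the block of the `l`
newest letters of `w` is a rearrangement of the block of length `l` that is `q` places older.
-/

namespace MPbbea99

open Finset

/-- violation with block length `l` and shift `q` at the head of `w` -/
def Viol {α : Type*} (w : List α) (l q : ℕ) : Prop :=
  (w.take l).Perm ((w.drop q).take l) ∧ q + l ≤ w.length

/-- the head of `w` completes a forbidden repetition -/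
def Bad {α : Type*} (E lmax : ℕ) (w : List α) : Prop :=
  (∃ q, 1 ≤ q ∧ q ≤ E ∧ Viol w 1 q) ∨
    (∃ l q, 2 ≤ l ∧ l ≤ lmax ∧ l ≤ q ∧ q ≤ 2 * l * E ∧ Viol w l q)

/-- `w` contains no forbidden repetition -/
def Good {α : Type*} (E lmax : ℕ) : List α → Prop
  | [] => True
  | (c :: x) => ¬ Bad E lmax (c :: x) ∧ Good E lmax x

lemma Good.drop {α : Type*} {E lmax : ℕ} {w : List α} (h : Good E lmax w) (k : ℕ) :
    Good E lmax (w.drop k) := by
  induction k generalizing w with
  | zero => simpa using h
  | succ k ih =>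
    cases w with
    | nil => simpa using h
    | cons c x => rw [List.drop_succ_cons]; exact ih h.2

lemma Good.not_bad {α : Type*} {E lmax : ℕ} {w : List α} (h : Good E lmax w) :
    ¬ Bad E lmax w := by
  cases w with
  | nil =>
    rintro (⟨q, h1, h2, h3, h4⟩ | ⟨l, q, h1, h2, h3, h4, h5, h6⟩)
    · simp at h4
    · simp at h6; omega
  | cons c x => exact h.1

/-- windows of a good word are not rearrangements of each other, length one -/
lemma Good.spacing {α : Type*} {E lmax : ℕ} {w : List α} (h : Good E lmax w) {i j : ℕ}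
    (hij : i < j) (hjE : j ≤ i + E) (hj : j < w.length) :
    w[i]'(hij.trans hj) ≠ w[j] := by
  intro he
  apply (h.drop i).not_bad
  left
  refine ⟨j - i, by omega, by omega, ?_, ?_⟩
  · rw [List.drop_drop]
    have e : i + (j - i) = j := by omega
    rw [e, List.drop_eq_getElem_cons (hij.trans hj), List.drop_eq_getElem_cons hj]
    simp only [List.take_succ_cons, List.take_zero, he]
    exact List.Perm.refl _
  · rw [List.length_drop]; omega

lemma Good.window {α : Type*} {E lmax : ℕ} {w : List α} (h : Good E lmax w) {a b l : ℕ}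
    (hl : 2 ≤ l) (hlm : l ≤ lmax) (hab : a + l ≤ b) (hbE : b ≤ a + 2 * l * E)
    (hb : b + l ≤ w.length) :
    ¬ ((w.drop a).take l).Perm ((w.drop b).take l) := by
  intro he
  apply (h.drop a).not_bad
  right
  refine ⟨l, b - a, hl, hlm, by omega, by omega, ?_, ?_⟩
  · rw [List.drop_drop]
    have e : a + (b - a) = b := by omega
    rw [e]
    exact he
  · rw [List.length_drop]; omega

section counting

variable (n E lmax : ℕ)

open Classical in
/-- the finite set of good words of length `N` over `Fin n` -/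
noncomputable def G : ℕ → Finset (List (Fin n))
  | 0 => {[]}
  | (N + 1) => (((univ : Finset (Fin n)) ×ˢ G N).image (fun p => p.1 :: p.2)).filter
      (fun w => ¬ Bad E lmax w)

lemma mem_G (N : ℕ) (w : List (Fin n)) : w ∈ G n E lmax N ↔ w.length = N ∧ Good E lmax w := by
  induction N generalizing w with
  | zero =>
    simp only [G, Finset.mem_singleton, List.length_eq_zero_iff]
    constructor
    · rintro rfl
      exact ⟨rfl, trivial⟩
    · rintro ⟨h, _⟩
      exact h
  | succ N ih =>
    simp only [G, Finset.mem_filter, Finset.mem_image, Finset.mem_product, Finset.mem_univ,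
      true_and, Prod.exists]
    constructor
    · rintro ⟨⟨c, x, h1, rfl⟩, h2⟩
      rw [ih] at h1
      refine ⟨by simp [h1.1], h2, h1.2⟩
    · rintro ⟨h1, h2⟩
      cases w with
      | nil => simp at h1
      | cons c x =>
        refine ⟨⟨c, x, ?_, rfl⟩, h2.1⟩
        rw [ih]
        refine ⟨by simpa using h1, h2.2⟩

/-- all one-letter extensions of good words -/
noncomputable def Ext (N : ℕ) : Finset (List (Fin n)) :=
  ((univ : Finset (Fin n)) ×ˢ G n E lmax N).image (fun p => p.1 :: p.2)

lemma mem_Ext (N : ℕ) (w : List (Fin n)) :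
    w ∈ Ext n E lmax N ↔ w.length = N + 1 ∧ Good E lmax (w.drop 1) := by
  unfold Ext
  simp only [Finset.mem_image, Finset.mem_product, Finset.mem_univ, true_and, Prod.exists]
  constructor
  · rintro ⟨c, x, h1, rfl⟩
    rw [mem_G] at h1
    exact ⟨by simp [h1.1], by simpa using h1.2⟩
  · rintro ⟨h1, h2⟩
    cases w with
    | nil => simp at h1
    | cons c x =>
      refine ⟨c, x, ?_, rfl⟩
      rw [mem_G]
      exact ⟨by simpa using h1, by simpa using h2⟩

lemma card_Ext (N : ℕ) : (Ext n E lmax N).card = n * (G n E lmax N).card := by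
  unfold Ext
  rw [Finset.card_image_of_injective, Finset.card_product, Finset.card_univ, Fintype.card_fin]
  rintro ⟨a, b⟩ ⟨c, d⟩ h
  simp only [List.cons.injEq] at h
  exact Prod.ext h.1 h.2

/-- words of a given shape: the `k` newest letters `z` and the rest `y` is good, and for each
`y` and each `q ∈ Q y`, `z ++ v y` is a rearrangement of `U y q`. -/
lemma card_perm_le (k : ℕ) (S : Finset (List (Fin n))) (v : List (Fin n) → List (Fin n))
    (U : List (Fin n) → ℕ → List (Fin n)) (Q : List (Fin n) → Finset ℕ) (M : ℕ)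
    (hQ : ∀ y ∈ S, (Q y).card ≤ M) (B : Finset (List (Fin n)))
    (hB : ∀ w ∈ B, k ≤ w.length ∧ w.drop k ∈ S ∧ ∃ q ∈ Q (w.drop k),
      (w.take k ++ v (w.drop k)).Perm (U (w.drop k) q)) :
    B.card ≤ S.card * (M * k.factorial) := by
  classical
  -- choose a reference arrangement
  let Z : List (Fin n) → ℕ → Finset (List (Fin n)) := fun y q =>
    if h : ∃ z : List (Fin n), z.length = k ∧ (z ++ v y).Perm (U y q) then
      (h.choose.permutations).toFinset else ∅
  have hZ : ∀ y q, (Z y q).card ≤ k.factorial := by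
    intro y q
    simp only [Z]
    split_ifs with h
    · calc _ ≤ (h.choose.permutations).length := List.toFinset_card_le _
        _ = k.factorial := by rw [List.length_permutations, h.choose_spec.1]
    · simp
  have hsub : B ⊆ S.biUnion (fun y => (Q y).biUnion (fun q => (Z y q).image (fun z => z ++ y))) := by
    intro w hw
    obtain ⟨h0, h1, q, h2, h3⟩ := hB w hw
    rw [Finset.mem_biUnion]
    refine ⟨w.drop k, h1, ?_⟩
    rw [Finset.mem_biUnion]
    refine ⟨q, h2, ?_⟩
    rw [Finset.mem_image]
    refine ⟨w.take k, ?_, List.take_append_drop k w⟩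
    have hex : ∃ z : List (Fin n), z.length = k ∧ (z ++ v (w.drop k)).Perm (U (w.drop k) q) :=
      ⟨w.take k, by rw [List.length_take]; omega, h3⟩
    simp only [Z]
    rw [dif_pos hex, List.mem_toFinset, List.mem_permutations]
    have h4 := hex.choose_spec.2
    exact (List.perm_append_right_iff _).1 (h3.trans h4.symm)
  calc B.card ≤ _ := Finset.card_le_card hsub
    _ ≤ ∑ y ∈ S, ((Q y).biUnion (fun q => (Z y q).image (fun z => z ++ y))).card :=
        Finset.card_biUnion_le
    _ ≤ ∑ y ∈ S, M * k.factorial := by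
        apply Finset.sum_le_sum
        intro y hy
        calc _ ≤ ∑ q ∈ Q y, ((Z y q).image (fun z => z ++ y)).card := Finset.card_biUnion_le
          _ ≤ ∑ q ∈ Q y, k.factorial := by
              apply Finset.sum_le_sum
              intro q _
              exact Finset.card_image_le.trans (hZ y q)
          _ = (Q y).card * k.factorial := by rw [Finset.sum_const, smul_eq_mul]
          _ ≤ M * k.factorial := Nat.mul_le_mul_right _ (hQ y hy)
    _ = S.card * (M * k.factorial) := by rw [Finset.sum_const, smul_eq_mul]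

open Classical in
/-- bad extensions with block length one -/
lemma card_bad_one (N : ℕ) :
    ((Ext n E lmax N).filter (fun w => ∃ q, 1 ≤ q ∧ q ≤ E ∧ Viol w 1 q)).card
      ≤ E * (G n E lmax N).card := by
  have hsub : ((Ext n E lmax N).filter (fun w => ∃ q, 1 ≤ q ∧ q ≤ E ∧ Viol w 1 q)) ⊆
      (G n E lmax N).biUnion (fun x => ((x.take E).toFinset).image (fun c => c :: x)) := by
    intro w hw
    rw [Finset.mem_filter, mem_Ext] at hw
    obtain ⟨⟨h1, h2⟩, q, h3, h4, h5, h6⟩ := hw
    cases w with
    | nil => simp at h1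
    | cons c x =>
      rw [Finset.mem_biUnion]
      refine ⟨x, ?_, ?_⟩
      · rw [mem_G]
        exact ⟨by simpa using h1, by simpa using h2⟩
      · rw [Finset.mem_image]
        refine ⟨c, ?_, rfl⟩
        rw [List.mem_toFinset]
        obtain ⟨q', rfl⟩ : ∃ q', q = q' + 1 := ⟨q - 1, by omega⟩
        simp only [List.length_cons] at h6
        have hq : q' < x.length := by omega
        rw [List.drop_succ_cons, List.drop_eq_getElem_cons hq] at h5
        simp only [List.take_succ_cons, List.take_zero, List.singleton_perm,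
          List.cons.injEq, and_true] at h5
        rw [List.mem_take_iff_getElem]
        exact ⟨q', by omega, h5.symm⟩
  calc _ ≤ _ := Finset.card_le_card hsub
    _ ≤ ∑ x ∈ G n E lmax N, (((x.take E).toFinset).image (fun c => c :: x)).card :=
        Finset.card_biUnion_le
    _ ≤ ∑ x ∈ G n E lmax N, E := by
        apply Finset.sum_le_sum
        intro x _
        calc _ ≤ ((x.take E).toFinset).card := Finset.card_image_le
          _ ≤ (x.take E).length := List.toFinset_card_le _
          _ ≤ E := by rw [List.length_take]; exact min_le_left _ _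
    _ = E * (G n E lmax N).card := by rw [Finset.sum_const, smul_eq_mul, mul_comm]

open Classical in
/-- candidates for the shift, given the older part `y` of the word whose newest letter is the
oldest letter of the newest block -/
noncomputable def Qs (l : ℕ) (y : List (Fin n)) : Finset ℕ :=
  (Finset.Icc l (2 * l * E)).filter (fun q => ∃ c y', y = c :: y' ∧ q + 1 ≤ y.length ∧
    c ∈ (y.drop (q - (l - 1))).take l)

lemma card_Qs_le (l : ℕ) (hl : 2 ≤ l) (hE : 1 ≤ E) (y : List (Fin n)) (hy : Good E lmax y) :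
    (Qs n E l y).card ≤ 2 * l * l := by
  classical
  -- D: positions d ≥ 1 with y[d] = y[0]
  let D : Finset ℕ := (Finset.Icc 1 (2 * l * E)).filter
    (fun d => ∃ h : d < y.length, y[d] = y[0]'(by omega))
  have hD : D.card ≤ 2 * l := by
    have hinj : Set.InjOn (fun d => d / (E + 1)) (D : Set ℕ) := by
      intro d1 hd1 d2 hd2 he
      simp only [D, Finset.coe_filter, Finset.mem_Icc, Set.mem_ofPred_eq] at hd1 hd2
      obtain ⟨⟨h1, h2⟩, h3, h4⟩ := hd1
      obtain ⟨⟨k1, k2⟩, k3, k4⟩ := hd2
      simp only at he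
      by_contra hne
      rcases Nat.lt_or_gt_of_ne hne with hlt | hlt
      · have h5 : d1 + E < d2 := by
          by_contra h6
          push Not at h6
          exact hy.spacing hlt h6 k3 (by rw [h4, k4])
        have h6 : d1 / (E + 1) + 1 ≤ d2 / (E + 1) := by
          rw [← Nat.add_div_right _ (by omega)]
          exact Nat.div_le_div_right (by omega)
        omega
      · have h5 : d2 + E < d1 := by
          by_contra h6
          push Not at h6
          exact hy.spacing hlt h6 h3 (by rw [h4, k4])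
        have h6 : d2 / (E + 1) + 1 ≤ d1 / (E + 1) := by
          rw [← Nat.add_div_right _ (by omega)]
          exact Nat.div_le_div_right (by omega)
        omega
    have hmaps : ∀ d ∈ D, d / (E + 1) ∈ Finset.range (2 * l) := by
      intro d hd
      simp only [D, Finset.mem_filter, Finset.mem_Icc] at hd
      rw [Finset.mem_range, Nat.div_lt_iff_lt_mul (by omega)]
      nlinarith [hd.1.2]
    calc D.card ≤ (Finset.range (2 * l)).card :=
          Finset.card_le_card_of_injOn _ hmaps hinj
      _ = 2 * l := Finset.card_range _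
  -- Qs ⊆ image of D × range l
  have hsub : Qs n E l y ⊆ (D ×ˢ Finset.range l).image (fun p => p.1 + (l - 1) - p.2) := by
    intro q hq
    simp only [Qs, Finset.mem_filter, Finset.mem_Icc] at hq
    obtain ⟨⟨h1, h2⟩, c, y', rfl, h3, h4⟩ := hq
    rw [List.mem_take_iff_getElem] at h4
    obtain ⟨i, hi, h5⟩ := h4
    rw [List.getElem_drop] at h5
    rw [List.length_drop] at hi
    rw [Finset.mem_image]
    refine ⟨(q - (l - 1) + i, i), ?_, ?_⟩
    · rw [Finset.mem_product, Finset.mem_range]
      refine ⟨?_, by simp only; omega⟩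
      simp only [D, Finset.mem_filter, Finset.mem_Icc]
      refine ⟨⟨by omega, by omega⟩, by omega, ?_⟩
      rw [h5]
      simp
    · simp only
      omega
  calc _ ≤ _ := Finset.card_le_card hsub
    _ ≤ (D ×ˢ Finset.range l).card := Finset.card_image_le
    _ = D.card * l := by rw [Finset.card_product, Finset.card_range]
    _ ≤ 2 * l * l := Nat.mul_le_mul_right _ hD

open Classical in
/-- bad extensions with a short block -/
lemma card_bad_short (N l : ℕ) (hl : 2 ≤ l) (hE : 1 ≤ E) (hlN : l ≤ N + 1) :
    ((Ext n E lmax N).filter (fun w => ∃ q, l ≤ q ∧ q ≤ 2 * l * E ∧ Viol w l q)).card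
      ≤ (G n E lmax (N + 2 - l)).card * (2 * l * l * (l - 1).factorial) := by
  apply card_perm_le n (l - 1) (G n E lmax (N + 2 - l)) (fun y => y.take 1)
    (fun y q => (y.drop (q - (l - 1))).take l) (fun y => Qs n E l y) (2 * l * l)
  · intro y hy
    rw [mem_G] at hy
    exact card_Qs_le n E lmax l hl hE y hy.2
  · intro w hw
    rw [Finset.mem_filter, mem_Ext] at hw
    obtain ⟨⟨h1, h2⟩, q, h3, h4, h5, h6⟩ := hw
    refine ⟨by omega, ?_, q, ?_, ?_⟩
    · rw [mem_G]
      refine ⟨by rw [List.length_drop]; omega, ?_⟩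
      have := h2.drop (l - 2)
      rw [List.drop_drop] at this
      have e : 1 + (l - 2) = l - 1 := by omega
      rwa [e] at this
    · unfold Qs
      rw [Finset.mem_filter, Finset.mem_Icc]
      refine ⟨⟨h3, h4⟩, ?_⟩
      have hlt : l - 1 < w.length := by omega
      rw [List.drop_eq_getElem_cons hlt]
      refine ⟨_, _, rfl, ?_, ?_⟩
      · rw [List.length_cons, List.length_drop]; omega
      · rw [← List.drop_eq_getElem_cons hlt, List.drop_drop]
        have e : l - 1 + (q - (l - 1)) = q := by omega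
        rw [e, ← h5.mem_iff, List.mem_take_iff_getElem]
        exact ⟨l - 1, by omega, rfl⟩
    · rw [List.drop_drop]
      have e : l - 1 + (q - (l - 1)) = q := by omega
      rw [e]
      have e2 : w.take (l - 1) ++ (w.drop (l - 1)).take 1 = w.take l := by
        rw [← List.take_add]
        congr 1
        omega
      rw [e2]
      exact h5

open Classical in
/-- bad extensions with a long block: look only at the `k` newest letters -/
lemma card_bad_long (N l k : ℕ) (hk : 1 ≤ k) (hkl : k ≤ l) (hlN : l ≤ N + 1) :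
    ((Ext n E lmax N).filter (fun w => ∃ q, l ≤ q ∧ q ≤ 2 * l * E ∧ Viol w l q)).card
      ≤ (G n E lmax (N + 1 - k)).card * ((2 * l * E + 1) * k.factorial) := by
  apply card_perm_le n k (G n E lmax (N + 1 - k)) (fun y => y.take (l - k))
    (fun y q => (y.drop (q - k)).take l) (fun y => Finset.range (2 * l * E + 1)) (2 * l * E + 1)
  · intro y hy
    rw [Finset.card_range]
  · intro w hw
    rw [Finset.mem_filter, mem_Ext] at hw
    obtain ⟨⟨h1, h2⟩, q, h3, h4, h5, h6⟩ := hw
    refine ⟨by omega, ?_, q, ?_, ?_⟩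
    · rw [mem_G]
      refine ⟨by rw [List.length_drop]; omega, ?_⟩
      have := h2.drop (k - 1)
      rw [List.drop_drop] at this
      have e : 1 + (k - 1) = k := by omega
      rwa [e] at this
    · rw [Finset.mem_range]; omega
    · rw [List.drop_drop]
      have e : k + (q - k) = q := by omega
      rw [e]
      have e2 : w.take k ++ (w.drop k).take (l - k) = w.take l := by
        rw [← List.take_add]
        congr 1
        omega
      rw [e2]
      exact h5

/-! ### Growth -/

/-- auxiliary: the weights of short blocks decay geometrically -/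
lemma short_weight (β : ℝ) (k0 : ℕ) (hβ : 2 * ((k0 : ℝ) + 4) ≤ β) (l : ℕ) (hl : 2 ≤ l)
    (hlk : l ≤ k0 + 1) :
    (2 * l * l * (l - 1).factorial : ℝ) / β ^ (l - 2) ≤ 8 * (1 / 2) ^ (l - 2) := by
  have hβ0 : 0 < β := by
    have : (0 : ℝ) ≤ k0 := Nat.cast_nonneg _
    linarith
  obtain ⟨i, rfl⟩ : ∃ i, l = i + 2 := ⟨l - 2, by omega⟩
  clear hl
  induction i with
  | zero => simp; norm_num
  | succ i ih =>
    have h1 := ih (by omega)
    simp only [Nat.add_sub_cancel] at h1 ⊢
    have e1 : i + 1 + 2 - 1 = (i + 1) + 1 := by omega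
    have e2 : i + 2 - 1 = i + 1 := by omega
    rw [e2] at h1
    rw [e1, Nat.factorial_succ]
    rw [div_le_iff₀ (by positivity)] at h1 ⊢
    push_cast at h1 ⊢
    have h2 : ((i : ℝ) + 1 + 2) * (i + 1 + 2) ≤ (β / 2) * (i + 2) := by
      have h3 : ((i : ℝ) + 3) ≤ k0 + 1 := by
        have : i + 3 ≤ k0 + 1 := by omega
        exact_mod_cast this
      have h4 : (i : ℝ) + 6 ≤ β / 2 := by linarith
      have h5 : (0 : ℝ) ≤ i := Nat.cast_nonneg _
      nlinarith
    have hf : (0 : ℝ) < ((i + 1).factorial : ℝ) := by positivity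
    have hi : (0 : ℝ) ≤ i := Nat.cast_nonneg _
    calc 2 * ((i : ℝ) + 1 + 2) * (i + 1 + 2) * ((i + 1 + 1) * ((i + 1).factorial : ℝ))
        = 2 * (((i : ℝ) + 1 + 2) * (i + 1 + 2)) * ((i + 2) * ((i + 1).factorial : ℝ)) := by ring
      _ ≤ 2 * ((β / 2) * (i + 2)) * ((i + 2) * ((i + 1).factorial : ℝ)) := by gcongr
      _ = (β / 2) * (2 * (i + 2) * (i + 2) * ((i + 1).factorial : ℝ)) := by ring
      _ ≤ (β / 2) * (8 * (1 / 2) ^ i * β ^ i) := by gcongr
      _ = 8 * (1 / 2) ^ (i + 1) * β ^ (i + 1) := by ring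

open Classical in
/-- **Growth of the number of good words.** -/
theorem growth (β k0 : ℕ) (hE : 1 ≤ E) (hk0 : 1 ≤ k0) (hβ : 2 * (k0 + 4) ≤ β)
    (hn : E + β + 17 ≤ n) (hlm : 1 ≤ lmax)
    (hlong : lmax * ((2 * lmax * E + 1) * k0.factorial) ≤ β ^ (k0 - 1)) (N : ℕ) :
    β * (G n E lmax N).card ≤ (G n E lmax (N + 1)).card := by
  induction N using Nat.strong_induction_on with
  | _ N IH =>
  have hβ0 : 0 < β := by omega
  -- iterate the induction hypothesis
  have hiter : ∀ k, k ≤ N → β ^ k * (G n E lmax (N - k)).card ≤ (G n E lmax N).card := by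
    intro k
    induction k with
    | zero => intro _; simp
    | succ k ihk =>
      intro hk
      have h1 := ihk (by omega)
      have h2 := IH (N - (k + 1)) (by omega)
      have e : N - (k + 1) + 1 = N - k := by omega
      rw [e] at h2
      calc β ^ (k + 1) * (G n E lmax (N - (k + 1))).card
          = β ^ k * (β * (G n E lmax (N - (k + 1))).card) := by ring
        _ ≤ β ^ k * (G n E lmax (N - k)).card := Nat.mul_le_mul_left _ h2
        _ ≤ _ := h1
  set V := (G n E lmax N).card with hV
  let Bl : ℕ → Finset (List (Fin n)) := fun l =>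
    (Ext n E lmax N).filter (fun w => ∃ q, l ≤ q ∧ q ≤ 2 * l * E ∧ Viol w l q)
  let B1 : Finset (List (Fin n)) :=
    (Ext n E lmax N).filter (fun w => ∃ q, 1 ≤ q ∧ q ≤ E ∧ Viol w 1 q)
  let Bb : Finset (List (Fin n)) := (Ext n E lmax N).filter (fun w => Bad E lmax w)
  let f : ℕ → ℝ := fun l => (if l ≤ k0 + 1 then 8 * (1 / 2) ^ (l - 2) else 1 / lmax)
  have hBl : ∀ l ∈ Finset.Icc 2 lmax, ((Bl l).card : ℝ) ≤ f l * V := by
    intro l hl
    rw [Finset.mem_Icc] at hl
    have hf0 : 0 ≤ f l := by
      simp only [f]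
      split_ifs <;> positivity
    by_cases hlN : l ≤ N + 1
    · by_cases hlk : l ≤ k0 + 1
      · have h1 := card_bad_short n E lmax N l hl.1 hE hlN
        have h2 := hiter (l - 2) (by omega)
        have e : N - (l - 2) = N + 2 - l := by omega
        rw [e] at h2
        have h3 := short_weight (β : ℝ) k0 (by exact_mod_cast hβ) l hl.1 hlk
        rw [div_le_iff₀ (by positivity)] at h3
        have hfl : f l = 8 * (1 / 2) ^ (l - 2) := by simp only [f]; rw [if_pos hlk]
        rw [hfl]
        have h1' : ((Bl l).card : ℝ) ≤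
            ((G n E lmax (N + 2 - l)).card : ℝ) * (2 * l * l * ((l - 1).factorial : ℝ)) := by
          exact_mod_cast h1
        have h2' : (β : ℝ) ^ (l - 2) * ((G n E lmax (N + 2 - l)).card : ℝ) ≤ V := by
          exact_mod_cast h2
        calc ((Bl l).card : ℝ) ≤ _ := h1'
          _ ≤ ((G n E lmax (N + 2 - l)).card : ℝ) * (8 * (1 / 2) ^ (l - 2) * β ^ (l - 2)) := by
              gcongr
          _ = 8 * (1 / 2) ^ (l - 2) * (β ^ (l - 2) * ((G n E lmax (N + 2 - l)).card : ℝ)) := by
              ring
          _ ≤ 8 * (1 / 2) ^ (l - 2) * V := by gcongr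
      · push Not at hlk
        have h1 := card_bad_long n E lmax N l k0 hk0 (by omega) hlN
        have h2 := hiter (k0 - 1) (by omega)
        have e : N - (k0 - 1) = N + 1 - k0 := by omega
        rw [e] at h2
        have hfl : f l = 1 / lmax := by simp only [f]; rw [if_neg (by omega)]
        rw [hfl]
        have hlm' : (0 : ℝ) < lmax := by exact_mod_cast hlm
        rw [div_mul_eq_mul_div, le_div_iff₀ hlm', one_mul]
        have h3 : (Bl l).card * lmax ≤ V := by
          calc (Bl l).card * lmax
              ≤ ((G n E lmax (N + 1 - k0)).card * ((2 * l * E + 1) * k0.factorial)) * lmax :=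
                Nat.mul_le_mul_right _ h1
            _ ≤ ((G n E lmax (N + 1 - k0)).card * ((2 * lmax * E + 1) * k0.factorial)) * lmax := by
                gcongr
                exact hl.2
            _ = (G n E lmax (N + 1 - k0)).card *
                  (lmax * ((2 * lmax * E + 1) * k0.factorial)) := by ring
            _ ≤ (G n E lmax (N + 1 - k0)).card * β ^ (k0 - 1) := Nat.mul_le_mul_left _ hlong
            _ = β ^ (k0 - 1) * (G n E lmax (N + 1 - k0)).card := by ring
            _ ≤ V := h2
        exact_mod_cast h3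
    · have : Bl l = ∅ := by
        rw [Finset.eq_empty_iff_forall_notMem]
        intro w hw
        simp only [Bl, Finset.mem_filter, mem_Ext] at hw
        obtain ⟨⟨h1, h2⟩, q, h3, h4, h5, h6⟩ := hw
        omega
      rw [this]
      simp only [Finset.card_empty, Nat.cast_zero]
      positivity
  have hsumf : ∑ l ∈ Finset.Icc 2 lmax, f l ≤ 17 := by
    have h1 : ∑ l ∈ Finset.Icc 2 lmax, f l ≤
        ∑ l ∈ Finset.Icc 2 lmax, (8 * (1 / 2 : ℝ) ^ (l - 2) + 1 / lmax) := by
      apply Finset.sum_le_sum
      intro l _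
      simp only [f]
      split_ifs
      · have : (0 : ℝ) ≤ 1 / lmax := by positivity
        linarith
      · have : (0 : ℝ) ≤ 8 * (1 / 2 : ℝ) ^ (l - 2) := by positivity
        linarith
    rw [Finset.sum_add_distrib, Finset.sum_const, ← Finset.mul_sum, Nat.card_Icc] at h1
    have h2 : ∑ l ∈ Finset.Icc 2 lmax, (1 / 2 : ℝ) ^ (l - 2) ≤ 2 := by
      have h3 : ∀ m : ℕ, ∑ l ∈ Finset.Icc 2 m, (1 / 2 : ℝ) ^ (l - 2) ≤ 2 - 2 * (1 / 2) ^ (m - 1) := by
        intro m
        induction m with
        | zero => simp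
        | succ m ih =>
          rcases Nat.lt_or_ge m 1 with hm | hm
          · have : m = 0 := by omega
            subst this
            simp
          · rw [Finset.sum_Icc_succ_top (by omega)]
            have e1 : m + 1 - 2 = m - 1 := by omega
            have e2 : m + 1 - 1 = (m - 1) + 1 := by omega
            rw [e1, e2, pow_succ]
            linarith
      have h4 := h3 lmax
      have h5 : (0 : ℝ) ≤ 2 * (1 / 2) ^ (lmax - 1) := by positivity
      linarith
    have h3 : ((lmax + 1 - 2 : ℕ) : ℝ) * (1 / lmax) ≤ 1 := by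
      have hlm' : (0 : ℝ) < lmax := by exact_mod_cast hlm
      rw [mul_one_div, div_le_one hlm']
      have : lmax + 1 - 2 ≤ lmax := by omega
      exact_mod_cast this
    rw [nsmul_eq_mul] at h1
    linarith
  have hB1 : B1.card ≤ E * V := card_bad_one n E lmax N
  have hBb : (Bb.card : ℝ) ≤ (E + 17) * V := by
    have hsub : Bb ⊆ B1 ∪ (Finset.Icc 2 lmax).biUnion Bl := by
      intro w hw
      simp only [Bb, Finset.mem_filter] at hw
      obtain ⟨h1, h2⟩ := hw
      rw [Finset.mem_union]
      rcases h2 with h2 | ⟨l, q, h3, h4, h5, h6, h7⟩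
      · left
        simp only [B1, Finset.mem_filter]
        exact ⟨h1, h2⟩
      · right
        rw [Finset.mem_biUnion]
        refine ⟨l, Finset.mem_Icc.2 ⟨h3, h4⟩, ?_⟩
        simp only [Bl, Finset.mem_filter]
        exact ⟨h1, q, h5, h6, h7⟩
    have h1 : Bb.card ≤ B1.card + ∑ l ∈ Finset.Icc 2 lmax, (Bl l).card :=
      (Finset.card_le_card hsub).trans
        ((Finset.card_union_le _ _).trans (Nat.add_le_add_left Finset.card_biUnion_le _))
    have h2 : (Bb.card : ℝ) ≤ B1.card + ∑ l ∈ Finset.Icc 2 lmax, ((Bl l).card : ℝ) := by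
      exact_mod_cast h1
    have h3 : ∑ l ∈ Finset.Icc 2 lmax, ((Bl l).card : ℝ) ≤ 17 * V := by
      calc _ ≤ ∑ l ∈ Finset.Icc 2 lmax, f l * V := Finset.sum_le_sum hBl
        _ = (∑ l ∈ Finset.Icc 2 lmax, f l) * V := by rw [Finset.sum_mul]
        _ ≤ 17 * V := by gcongr
    have h4 : (B1.card : ℝ) ≤ E * V := by exact_mod_cast hB1
    linarith
  have hBb' : Bb.card ≤ (E + 17) * V := by exact_mod_cast hBb
  have htot : (G n E lmax (N + 1)).card + Bb.card = n * V := by
    rw [← card_Ext]
    have : G n E lmax (N + 1) = (Ext n E lmax N).filter (fun w => ¬ Bad E lmax w) := rfl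
    rw [this, add_comm]
    exact Finset.card_filter_add_card_filter_not _
  have hn' : (E + β + 17) * V ≤ n * V := Nat.mul_le_mul_right _ hn
  have e : (E + β + 17) * V = β * V + (E + 17) * V := by ring
  omega

/-- good words of every length exist -/
theorem exists_good (β k0 : ℕ) (hE : 1 ≤ E) (hk0 : 1 ≤ k0) (hβ : 2 * (k0 + 4) ≤ β)
    (hn : E + β + 17 ≤ n) (hlm : 1 ≤ lmax)
    (hlong : lmax * ((2 * lmax * E + 1) * k0.factorial) ≤ β ^ (k0 - 1)) (N : ℕ) :
    ∃ w : List (Fin n), w.length = N ∧ Good E lmax w := by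
  have h : 0 < (G n E lmax N).card := by
    induction N with
    | zero => simp [G]
    | succ N ih =>
      have h1 := growth n E lmax β k0 hE hk0 hβ hn hlm hlong N
      have h2 : 0 < β * (G n E lmax N).card := Nat.mul_pos (by omega) ih
      omega
  obtain ⟨w, hw⟩ := Finset.card_pos.1 h
  exact ⟨w, (mem_G n E lmax N w).1 hw⟩

end counting

/-- numerical choice of the parameters -/
lemma param_long (e E : ℕ) (hE : E ≤ 2 ^ e) (hE1 : 1 ≤ E) :
    (128 * E ^ 2) * ((2 * (128 * E ^ 2) * E + 1) * (6 * e + 24).factorial) ≤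
      (12 * e + 56) ^ (6 * e + 24 - 1) := by
  obtain ⟨k, hk⟩ : ∃ k, k = 6 * e + 24 := ⟨_, rfl⟩
  rw [← hk]
  have h1 : k.factorial ≤ k ^ k := Nat.factorial_le_pow k
  have h2 : (12 * e + 56) = 2 * (k + 4) := by omega
  rw [h2]
  have h3 : (128 * E ^ 2) * (2 * (128 * E ^ 2) * E + 1) ≤ 2 ^ (5 * e + 16) := by
    have h4 : E ^ 2 ≤ 2 ^ (2 * e) := by
      calc E ^ 2 ≤ (2 ^ e) ^ 2 := Nat.pow_le_pow_left hE 2
        _ = 2 ^ (2 * e) := by rw [← pow_mul]; congr 1; ring
    have h5 : 2 * (128 * E ^ 2) * E + 1 ≤ 2 ^ (3 * e + 9) := by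
      have h6 : E ^ 2 * E ≤ 2 ^ (3 * e) := by
        calc E ^ 2 * E ≤ 2 ^ (2 * e) * 2 ^ e := Nat.mul_le_mul h4 hE
          _ = 2 ^ (3 * e) := by rw [← pow_add]; congr 1; ring
      have h7 : (1 : ℕ) ≤ 2 ^ (3 * e) := Nat.one_le_two_pow
      have h8 : (2 : ℕ) ^ (3 * e + 9) = 512 * 2 ^ (3 * e) := by ring
      nlinarith
    calc (128 * E ^ 2) * (2 * (128 * E ^ 2) * E + 1)
        ≤ (128 * 2 ^ (2 * e)) * 2 ^ (3 * e + 9) := by gcongr
      _ = 2 ^ (5 * e + 16) := by
        have : (128 : ℕ) = 2 ^ 7 := by norm_num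
        rw [this, ← pow_add, ← pow_add]
        congr 1
        ring
  have h4 : (6 * e + 28) * 2 ≤ 2 ^ (e + 8) := by
    have : e < 2 ^ e := Nat.lt_two_pow_self
    have h8 : (2 : ℕ) ^ (e + 8) = 256 * 2 ^ e := by ring
    omega
  -- multiply both sides by 2 (k+4)
  have h5 : (128 * E ^ 2) * ((2 * (128 * E ^ 2) * E + 1) * k.factorial) * (2 * (k + 4)) ≤
      (2 * (k + 4)) ^ (k - 1) * (2 * (k + 4)) := by
    have h6 : (2 * (k + 4)) ^ (k - 1) * (2 * (k + 4)) = (2 * (k + 4)) ^ k := by
      rw [← pow_succ]
      congr 1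
      omega
    rw [h6, mul_pow]
    have h7 : 5 * e + 16 + (e + 8) = k := by omega
    have h8 : 2 * (k + 4) ≤ 2 ^ (e + 8) := by omega
    calc (128 * E ^ 2) * ((2 * (128 * E ^ 2) * E + 1) * k.factorial) * (2 * (k + 4))
        = ((128 * E ^ 2) * (2 * (128 * E ^ 2) * E + 1)) * (2 * (k + 4)) * k.factorial := by ring
      _ ≤ 2 ^ (5 * e + 16) * 2 ^ (e + 8) * k ^ k :=
          Nat.mul_le_mul (Nat.mul_le_mul h3 h8) h1
      _ = 2 ^ k * k ^ k := by
          rw [← pow_add, h7]
      _ ≤ 2 ^ k * (k + 4) ^ k :=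
          Nat.mul_le_mul_left _ (Nat.pow_le_pow_left (by omega) k)
  exact Nat.le_of_mul_le_mul_right h5 (by omega)

/-- **Good words exist over `E + 12 e + 73` letters.** -/
theorem exists_good' (e E : ℕ) (hE : E ≤ 2 ^ e) (hE1 : 1 ≤ E) (N : ℕ) :
    ∃ w : List (Fin (E + 12 * e + 73)), w.length = N ∧ Good E (128 * E ^ 2) w := by
  apply exists_good (E + 12 * e + 73) E (128 * E ^ 2) (12 * e + 56) (6 * e + 24) hE1
    (by omega) (by omega) (by omega)
  · have : 1 ≤ E ^ 2 := Nat.one_le_pow _ _ hE1
    omega
  · exact param_long e E hE hE1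

end MPbbea99
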