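import Pool.Agent.Lib.Pbbea99.Struct
import Pool.Agent.Lib.Pbbea99.Rand

/-!
# MP_bbea99_co: the final words

Every `E`-th letter is structural, the other letters come from a good word.
-/

namespace MPbbea99

open Finset

lemma cnt_true (a b : ℕ) : cnt (fun _ => True) a b = b - a := by
  unfold cnt
  simp

/-- counting through the structural positions -/
lemma cnt_struct (P : ℕ → Prop) [DecidablePred P] {E : ℕ} (hE : 1 ≤ E) {A B : ℕ} (hAB : A ≤ B) :
    cnt (fun i => (i + 1) % E = 0 ∧ P (i / E)) A B = cnt P (A / E) (B / E) := by
  induction B, hAB using Nat.le_induction with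
  | base => rw [cnt_self, cnt_self]
  | succ B hAB ih =>
    rw [cnt_succ_right _ hAB, ih]
    by_cases h : (B + 1) % E = 0
    · have h1 : (B + 1) / E = B / E + 1 := by
        obtain ⟨q, hq⟩ := Nat.dvd_of_mod_eq_zero h
        have hq1 : 1 ≤ q := by
          rcases Nat.eq_zero_or_pos q with h0 | h0
          · subst h0; omega
          · exact h0
        rw [hq, Nat.mul_div_cancel_left _ (by omega)]
        have h2 : B = E * (q - 1) + (E - 1) := by
          obtain ⟨q', rfl⟩ : ∃ q', q = q' + 1 := ⟨q - 1, by omega⟩
          simp only [Nat.add_sub_cancel]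
          rw [Nat.mul_succ] at hq
          omega
        rw [h2, Nat.mul_add_div (by omega), Nat.div_eq_of_lt (by omega : E - 1 < E)]
        omega
      rw [h1, cnt_succ_right _ (Nat.div_le_div_right hAB)]
      simp only [h, true_and]
    · have h1 : (B + 1) / E = B / E := by
        rw [Nat.succ_div, if_neg]
        · rfl
        · intro hd
          exact h (Nat.mod_eq_zero_of_dvd hd)
      rw [h1]
      simp [h]

lemma sub_div_mono {E : ℕ} (hE : 1 ≤ E) {A B : ℕ} (hAB : A ≤ B) : A - A / E ≤ B - B / E := by
  obtain ⟨d, rfl⟩ := Nat.exists_eq_add_of_le hAB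
  have h1 : (A + d) / E ≤ A / E + d := by
    rw [Nat.div_le_iff_le_mul_add_pred (by omega)]
    have h2 := Nat.div_add_mod A E
    have h3 := Nat.mod_lt A (by omega : 0 < E)
    have h4 : E * (A / E + d) = E * (A / E) + E * d := by ring
    have h5 : d ≤ E * d := Nat.le_mul_of_pos_left d (by omega)
    omega
  have h2 : A / E ≤ A := Nat.div_le_self A E
  omega

/-- counting through the non-structural positions -/
lemma cnt_rand (P : ℕ → Prop) [DecidablePred P] {E : ℕ} (hE : 1 ≤ E) {A B : ℕ} (hAB : A ≤ B) :
    cnt (fun i => (i + 1) % E ≠ 0 ∧ P (i - i / E)) A B = cnt P (A - A / E) (B - B / E) := by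
  induction B, hAB using Nat.le_induction with
  | base => rw [cnt_self, cnt_self]
  | succ B hAB ih =>
    rw [cnt_succ_right _ hAB, ih]
    have hB : B / E ≤ B := Nat.div_le_self B E
    by_cases h : (B + 1) % E = 0
    · have h1 : (B + 1) / E = B / E + 1 := by
        rw [Nat.succ_div, if_pos (Nat.dvd_of_mod_eq_zero h)]
      rw [h1]
      have e : B + 1 - (B / E + 1) = B - B / E := by omega
      rw [e]
      simp [h]
    · have h1 : (B + 1) / E = B / E := by
        rw [Nat.succ_div, if_neg]
        · rfl
        · intro hd
          exact h (Nat.mod_eq_zero_of_dvd hd)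
      rw [h1]
      have e : B + 1 - B / E = (B - B / E) + 1 := by omega
      rw [e, cnt_succ_right _ (sub_div_mono hE hAB)]
      simp [h]

/-- the structural letter number `k` -/
def tl (J : ℕ) (hJ : 0 < J) (k : ℕ) : Fin J × Fin 17 × Fin 3 :=
  (⟨sc k % J, Nat.mod_lt _ hJ⟩, ⟨(k / bl (sc k)) % 17, Nat.mod_lt _ (by norm_num)⟩,
    ⟨k % 3, Nat.mod_lt _ (by norm_num)⟩)

/-- the infinite word: structural letters at the positions `i` with `E ∣ i + 1` -/
def W0 {α : Type*} (E J : ℕ) (hJ : 0 < J) (X : ℕ → α) (i : ℕ) : α ⊕ (Fin J × Fin 17 × Fin 3) :=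
  if (i + 1) % E = 0 then Sum.inr (tl J hJ (i / E)) else Sum.inl (X (i - i / E))

/-- equality of all letter counts implies equality of the counts for predicates -/
lemma cnt_pred_of_letters {β : Type*} [Fintype β] [DecidableEq β] (W : ℕ → β) {A B A' B' : ℕ}
    (h : ∀ c : β, cnt (fun i => W i = c) A B = cnt (fun i => W i = c) A' B')
    (S : β → Prop) [DecidablePred S] :
    cnt (fun i => S (W i)) A B = cnt (fun i => S (W i)) A' B' := by
  have key : ∀ A B, cnt (fun i => S (W i)) A B
      = ∑ c ∈ (univ : Finset β).filter S, cnt (fun i => W i = c) A B := by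
    intro A B
    unfold cnt
    rw [Finset.card_eq_sum_card_fiberwise (f := W) (t := (univ : Finset β).filter S)]
    · apply Finset.sum_congr rfl
      intro c hc
      rw [Finset.mem_filter] at hc
      congr 1
      ext i
      simp only [Finset.mem_filter]
      constructor
      · rintro ⟨⟨h1, h2⟩, h3⟩
        exact ⟨h1, h3⟩
      · rintro ⟨h1, h3⟩
        exact ⟨⟨h1, by rw [h3]; exact hc.2⟩, h3⟩
    · intro i hi
      simp only [Finset.coe_filter, Finset.mem_Ico, Set.mem_ofPred_eq] at hi ⊢
      exact ⟨Finset.mem_univ _, hi.2⟩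
  rw [key, key]
  exact Finset.sum_congr rfl (fun c _ => h c)

/-- letter counts in a window of a list -/
lemma count_take_drop {α : Type*} [DecidableEq α] (w : List α) (x0 : α) (a l : ℕ)
    (h : a + l ≤ w.length) (c : α) :
    ((w.drop a).take l).count c = cnt (fun k => w.getD k x0 = c) a (a + l) := by
  induction l with
  | zero => simp [cnt_self]
  | succ l ih =>
    have h1 : a + l < w.length := by omega
    have e : (w.drop a).take (l + 1) = (w.drop a).take l ++ [w[a + l]] := by
      rw [List.take_add_one]
      congr 1
      rw [List.getElem?_drop, List.getElem?_eq_getElem h1]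
      rfl
    rw [e, List.count_append, ih (by omega), ← Nat.add_assoc, cnt_succ_right _ (by omega)]
    congr 1
    rw [List.getD_eq_getElem _ _ h1, List.count_singleton]
    by_cases hc : w[a + l] = c
    · simp [hc]
    · simp [hc]

theorem window_lemma {α : Type*} [Fintype α] [DecidableEq α] (E e J : ℕ) (hE3 : 3 ≤ E)
    (hJ : J = e + 5) (hJ0 : 0 < J) (hEe : E ≤ 2 ^ e) (w : List α) (x0 : α)
    (hw : Good E (128 * E ^ 2) w)
    (A m p : ℕ) (hm : 1 ≤ m) (hmp : m ≤ p) (hpm : p ≤ m * E) (hN : A + p + m ≤ w.length)
    (h : ∀ c, cnt (fun i => W0 E J hJ0 (fun k => w.getD k x0) i = c) A (A + m) =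
      cnt (fun i => W0 E J hJ0 (fun k => w.getD k x0) i = c) (A + p) (A + p + m)) : False := by
  set X : ℕ → α := fun k => w.getD k x0 with hX
  set W := W0 E J hJ0 X with hW
  have hE1 : 1 ≤ E := by omega
  -- structural predicates
  have hS : ∀ (P : ℕ → Prop) [DecidablePred P] (S : (Fin J × Fin 17 × Fin 3) → Prop)
      [DecidablePred S], (∀ k, P k ↔ S (tl J hJ0 k)) →
      cnt P (A / E) ((A + m) / E) = cnt P ((A + p) / E) ((A + p + m) / E) := by
    intro P _ S _ hPS
    let S' : α ⊕ (Fin J × Fin 17 × Fin 3) → Prop := fun x => match x with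
      | Sum.inl _ => False
      | Sum.inr t => S t
    have hdec : DecidablePred S' := fun x => by
      cases x with
      | inl a => exact instDecidableFalse
      | inr t => exact inferInstanceAs (Decidable (S t))
    have h1 := cnt_pred_of_letters W h S'
    have h2 : ∀ u v, cnt (fun i => S' (W i)) u v
        = cnt (fun i => (i + 1) % E = 0 ∧ P (i / E)) u v := by
      intro u v
      apply cnt_congr
      intro i _ _
      by_cases hi : (i + 1) % E = 0
      · have : W i = Sum.inr (tl J hJ0 (i / E)) := by
          simp only [hW, W0, if_pos hi]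
        rw [this]
        simp only [S', hi, true_and]
        exact (hPS _).symm
      · have : W i = Sum.inl (X (i - i / E)) := by
          simp only [hW, W0, if_neg hi]
        rw [this]
        simp [S', hi]
    rw [h2, h2, cnt_struct P hE1 (by omega), cnt_struct P hE1 (by omega)] at h1
    exact h1
  -- random letters
  have hR : ∀ c : α, cnt (fun k => X k = c) (A - A / E) ((A + m) - (A + m) / E)
      = cnt (fun k => X k = c) ((A + p) - (A + p) / E) ((A + p + m) - (A + p + m) / E) := by
    intro c
    have h1 := h (Sum.inl c)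
    have h2 : ∀ u v, cnt (fun i => W i = Sum.inl c) u v
        = cnt (fun i => (i + 1) % E ≠ 0 ∧ X (i - i / E) = c) u v := by
      intro u v
      apply cnt_congr
      intro i _ _
      by_cases hi : (i + 1) % E = 0
      · have : W i = Sum.inr (tl J hJ0 (i / E)) := by
          simp only [hW, W0, if_pos hi]
        rw [this]
        simp [hi]
      · have : W i = Sum.inl (X (i - i / E)) := by
          simp only [hW, W0, if_neg hi]
        rw [this]
        simp only [Sum.inl.injEq, ne_eq, hi, not_false_eq_true, true_and]
    rw [h2, h2, cnt_rand (fun k => X k = c) hE1 (by omega),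
      cnt_rand (fun k => X k = c) hE1 (by omega)] at h1
    exact h1
  -- quotients
  have hd1 := Nat.div_add_mod A E
  have hd1' := Nat.mod_lt A (by omega : 0 < E)
  have hd2 := Nat.div_add_mod (A + m) E
  have hd2' := Nat.mod_lt (A + m) (by omega : 0 < E)
  have hd3 := Nat.div_add_mod (A + p) E
  have hd3' := Nat.mod_lt (A + p) (by omega : 0 < E)
  have hd4 := Nat.div_add_mod (A + p + m) E
  have hd4' := Nat.mod_lt (A + p + m) (by omega : 0 < E)
  have hle1 : A / E ≤ (A + m) / E := Nat.div_le_div_right (by omega)
  have hle2 : (A + m) / E ≤ (A + p) / E := Nat.div_le_div_right (by omega)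
  have hle3 : (A + p) / E ≤ (A + p + m) / E := Nat.div_le_div_right (by omega)
  have hba : (A + p) / E ≤ A / E + m := by
    calc (A + p) / E ≤ (A + m * E) / E := Nat.div_le_div_right (by omega)
      _ = A / E + m := Nat.add_mul_div_right _ _ (by omega)
  have hself1 := Nat.div_le_self A E
  have hself2 := Nat.div_le_self (A + m) E
  have hself3 := Nat.div_le_self (A + p) E
  have hself4 := Nat.div_le_self (A + p + m) E
  have hmono1 := sub_div_mono hE1 (by omega : A ≤ A + m)
  have hmono2 := sub_div_mono hE1 (by omega : A + m ≤ A + p)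
  have hmono3 := sub_div_mono hE1 (by omega : A + p ≤ A + p + m)
  -- same number of structural letters
  have hm' : (A + m) / E - A / E = (A + p + m) / E - (A + p) / E := by
    have := hS (fun _ => True) (fun _ => True) (fun _ => Iff.rfl)
    rw [cnt_true, cnt_true] at this
    exact this
  obtain ⟨a, ha⟩ : ∃ a, a = A / E := ⟨_, rfl⟩
  obtain ⟨a', ha'⟩ : ∃ a', a' = (A + m) / E := ⟨_, rfl⟩
  obtain ⟨b, hb⟩ : ∃ b, b = (A + p) / E := ⟨_, rfl⟩
  obtain ⟨b', hb'⟩ : ∃ b', b' = (A + p + m) / E := ⟨_, rfl⟩
  simp only [← ha, ← ha', ← hb, ← hb'] at *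
  obtain ⟨m', hm'1⟩ : ∃ m', a' = a + m' := Nat.exists_eq_add_of_le hle1
  subst hm'1
  have hb2 : b' = b + m' := by omega
  subst hb2
  clear hm'
  -- m < E (m'+1)
  have hmE : m < E * (m' + 1) := by
    have : E * (a + m') = E * a + E * m' := by ring
    have e2 : E * (m' + 1) = E * m' + E := by ring
    omega
  -- E (m' - 1) < m
  have hmE2 : E * m' < m + E := by
    have : E * (a + m') = E * a + E * m' := by ring
    omega
  by_cases hbig : 128 * E ≤ m'
  · -- structural contradiction
    have hF : 6 ≤ 2 * E := by omega
    have hJ' : 16 * (2 * E) ≤ 2 ^ J := by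
      rw [hJ]
      have : (2 : ℕ) ^ (e + 5) = 32 * 2 ^ e := by ring
      omega
    have h3 : b - a ≤ 2 * E * m' := by
      have e1 : E * (m' + 1) = E * m' + E := by ring
      have e2 : 2 * E * m' = E * m' + E * m' := by ring
      have e3 : E * 1 ≤ E * m' := Nat.mul_le_mul_left _ (by omega)
      omega
    obtain ⟨j, c, d, hcd⟩ := struct_lemma (2 * E) J a b m' hF hJ' (by omega) (by omega) h3
      (by omega)
    have h4 := hS (colP J j c d)
      (fun t => t.1.val = j ∧ (t.2.1.val = c ∨ t.2.1.val = d)) (fun k => Iff.rfl)
    omega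
  · push Not at hbig
    have hm3 : 3 * m' ≤ m + 2 := by
      rcases Nat.eq_zero_or_pos m' with h0 | h0
      · omega
      · obtain ⟨q, rfl⟩ : ∃ q, m' = q + 1 := ⟨m' - 1, by omega⟩
        have e1 : E * (q + 1) = E * q + E := by ring
        have e2 : 3 * q ≤ E * q := Nat.mul_le_mul_right _ hE3
        omega
    -- random window length
    have hl1 : (A + m) - (a + m') = (A - a) + (m - m') := by omega
    have hl2 : (A + p + m) - (b + m') = (A + p - b) + (m - m') := by omega
    rw [hl1, hl2] at hR
    by_cases hcase : 2 ≤ m - m' ∧ m ≤ 2 * (m - m')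
    · -- counting part
      obtain ⟨hc1, hc2⟩ := hcase
      have hlmax : m - m' ≤ 128 * E ^ 2 := by
        have e1 : E * (m' + 1) ≤ E * (128 * E) := Nat.mul_le_mul_left _ (by omega)
        have e2 : E * (128 * E) = 128 * E ^ 2 := by ring
        omega
      apply hw.window (a := A - a) (b := A + p - b) (l := m - m') hc1 hlmax (by omega) ?_ (by omega)
      · rw [List.perm_iff_count]
        intro c
        rw [count_take_drop w x0 _ _ (by omega), count_take_drop w x0 _ _ (by omega)]
        exact hR c
      · have e1 : m * E ≤ 2 * (m - m') * E := Nat.mul_le_mul_right _ hc2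
        omega
    · have hm2 : m ≤ 2 := by omega
      rcases Nat.eq_zero_or_pos m' with h0 | h0
      · -- m = 1, m' = 0
        subst h0
        have hm1 : m = 1 := by omega
        subst hm1
        have h5 := hR (X (A - a))
        have h6 : cnt (fun k => X k = X (A - a)) (A - a) (A - a + (1 - 0)) = 1 := by
          have := cnt_succ_right (fun k => X k = X (A - a)) (le_refl (A - a))
          rw [cnt_self] at this
          simpa using this
        rw [h6] at h5
        have h7 : X (A + p - b) = X (A - a) := by
          by_contra hne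
          have : cnt (fun k => X k = X (A - a)) (A + p - b) (A + p - b + (1 - 0)) = 0 := by
            have := cnt_succ_right (fun k => X k = X (A - a)) (le_refl (A + p - b))
            rw [cnt_self, if_neg hne] at this
            simpa using this
          omega
        have hlt : A - a < A + p - b := by omega
        have hlen : A + p - b < w.length := by omega
        apply hw.spacing hlt (by omega) hlen
        simp only [hX] at h7
        rw [List.getD_eq_getElem _ _ hlen, List.getD_eq_getElem _ _ (hlt.trans hlen)] at h7
        exact h7.symm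
      · -- a structural letter in a window of length at most two
        have h5 := hS (fun k => tl J hJ0 k = tl J hJ0 a) (fun t => t = tl J hJ0 a)
          (fun _ => Iff.rfl)
        have h6 : 0 < cnt (fun k => tl J hJ0 k = tl J hJ0 a) a (a + m') := by
          unfold cnt
          rw [Finset.card_pos]
          refine ⟨a, ?_⟩
          rw [Finset.mem_filter, Finset.mem_Ico]
          exact ⟨⟨le_refl _, by omega⟩, rfl⟩
        rw [h5] at h6
        unfold cnt at h6
        rw [Finset.card_pos] at h6
        obtain ⟨k', hk'⟩ := h6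
        rw [Finset.mem_filter, Finset.mem_Ico] at hk'
        obtain ⟨⟨hk1, hk2⟩, hk3⟩ := hk'
        have hmod : k' % 3 = a % 3 := by
          have := congrArg (fun t => t.2.2.val) hk3
          simpa [tl] using this
        have hak : a + 3 ≤ k' := by
          have : a < k' := by omega
          omega
        -- k' ≤ b + m' - 1, a E + (E-1) ≥ A
        have h8 : E * (a + 3) ≤ E * k' := Nat.mul_le_mul_left _ hak
        have h9 : E * (k' + 1) ≤ E * (b + m') := Nat.mul_le_mul_left _ (by omega)
        have e1 : E * (k' + 1) = E * k' + E := by ring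
        have e2 : E * (a + 3) = E * a + 3 * E := by ring
        have h10 : m * E ≤ 2 * E := Nat.mul_le_mul_right _ hm2
        have hb1 : b + m' ≤ b + m' := le_refl _
        omega

end MPbbea99
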