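import Mathlib

/-!
# MP_bbea99_co: the structural sequence

A deterministic sequence over `O(log F)` colours such that, for all windows
`[a, a+m)`, `[b, b+m)` of equal length `m` with `64 F ≤ m ≤ b - a ≤ F m`, some pair of colours
occurs more often in the first window than in the second one.
-/

namespace MPbbea99

open Finset

/-- number of `k ∈ [a, b)` with `P k`. -/
def cnt (P : ℕ → Prop) [DecidablePred P] (a b : ℕ) : ℕ := ((Finset.Ico a b).filter P).card

section cntlemmas

variable (P Q : ℕ → Prop) [DecidablePred P] [DecidablePred Q]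

lemma cnt_add {a b c : ℕ} (hab : a ≤ b) (hbc : b ≤ c) : cnt P a c = cnt P a b + cnt P b c := by
  unfold cnt
  rw [← Finset.card_union_of_disjoint]
  · rw [← Finset.filter_union, Finset.Ico_union_Ico_eq_Ico hab hbc]
  · apply Finset.disjoint_filter_filter
    exact Finset.Ico_disjoint_Ico_consecutive a b c

lemma cnt_mono_right {a b c : ℕ} (hbc : b ≤ c) : cnt P a b ≤ cnt P a c := by
  unfold cnt
  apply Finset.card_le_card
  apply Finset.filter_subset_filter
  exact Finset.Ico_subset_Ico_right hbc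

lemma cnt_congr {a b : ℕ} (h : ∀ k, a ≤ k → k < b → (P k ↔ Q k)) : cnt P a b = cnt Q a b := by
  unfold cnt
  congr 1
  apply Finset.filter_congr
  intro k hk
  rw [Finset.mem_Ico] at hk
  exact h k hk.1 hk.2

lemma cnt_mono {a b : ℕ} (h : ∀ k, a ≤ k → k < b → P k → Q k) : cnt P a b ≤ cnt Q a b := by
  unfold cnt
  apply Finset.card_le_card
  intro k hk
  rw [Finset.mem_filter, Finset.mem_Ico] at hk ⊢
  exact ⟨hk.1, h k hk.1.1 hk.1.2 hk.2⟩

lemma cnt_eq_zero {a b : ℕ} (h : ∀ k, a ≤ k → k < b → ¬ P k) : cnt P a b = 0 := by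
  unfold cnt
  rw [Finset.card_eq_zero, Finset.filter_eq_empty_iff]
  intro k hk
  rw [Finset.mem_Ico] at hk
  exact h k hk.1 hk.2

lemma cnt_self (a : ℕ) : cnt P a a = 0 := by
  apply cnt_eq_zero
  intro k h1 h2
  omega

lemma cnt_succ_right {a b : ℕ} (hab : a ≤ b) :
    cnt P a (b + 1) = cnt P a b + (if P b then 1 else 0) := by
  rw [cnt_add P hab (Nat.le_succ b)]
  congr 1
  unfold cnt
  rw [Nat.Ico_succ_singleton, Finset.filter_singleton]
  split_ifs <;> simp

lemma cnt_period {T : ℕ} (hP : Function.Periodic P T) (a : ℕ) :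
    cnt P a (a + T) = T.count P := by
  unfold cnt
  exact Nat.filter_Ico_card_eq_of_periodic a T P hP

lemma cnt_period_mul {T : ℕ} (hP : Function.Periodic P T) (a q : ℕ) :
    cnt P a (a + q * T) = q * T.count P := by
  induction q with
  | zero => simp [cnt_self]
  | succ q ih =>
    rw [cnt_add P (b := a + q * T) (by omega) (by nlinarith), ih]
    have : a + (q + 1) * T = (a + q * T) + T := by ring
    rw [this, cnt_period P hP]
    ring

lemma cnt_period_lower {T : ℕ} (hP : Function.Periodic P T) (a n : ℕ) :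
    (n / T) * T.count P ≤ cnt P a (a + n) := by
  rw [← cnt_period_mul P hP a (n / T)]
  apply cnt_mono_right
  have := Nat.div_mul_le_self n T
  omega

lemma cnt_period_upper {T : ℕ} (hT : 0 < T) (hP : Function.Periodic P T) (a n : ℕ) :
    cnt P a (a + n) ≤ (n / T + 1) * T.count P := by
  rw [← cnt_period_mul P hP a (n / T + 1)]
  apply cnt_mono_right
  have := Nat.lt_div_mul_add hT (a := n)
  have h2 : (n / T + 1) * T = n / T * T + T := by ring
  omega

/-- two windows of the same length differ by at most the number of points in a period -/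
lemma cnt_period_diff {T : ℕ} (hT : 0 < T) (hP : Function.Periodic P T) (a b n : ℕ) :
    cnt P b (b + n) ≤ cnt P a (a + n) + T.count P := by
  have h1 := cnt_period_upper P hT hP b n
  have h2 := cnt_period_lower P hP a n
  have h3 : (n / T + 1) * T.count P = n / T * T.count P + T.count P := by ring
  omega

lemma cnt_split_scale (f : ℕ → ℕ) (a b n : ℕ) :
    cnt P a b = (∑ s ∈ range n, cnt (fun k => P k ∧ f k = s) a b)
      + cnt (fun k => P k ∧ n ≤ f k) a b := by
  induction n with
  | zero => simp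
  | succ n ih =>
    rw [Finset.sum_range_succ, ih]
    have : cnt (fun k => P k ∧ n ≤ f k) a b
        = cnt (fun k => P k ∧ f k = n) a b + cnt (fun k => P k ∧ n + 1 ≤ f k) a b := by
      unfold cnt
      rw [← Finset.card_union_of_disjoint]
      · congr 1
        ext k
        simp only [Finset.mem_union, Finset.mem_filter]
        constructor
        · rintro ⟨h1, h2, h3⟩
          rcases Nat.eq_or_lt_of_le h3 with h | h
          · exact Or.inl ⟨h1, h2, h.symm⟩
          · exact Or.inr ⟨h1, h2, h⟩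
        · rintro (⟨h1, h2, h3⟩ | ⟨h1, h2, h3⟩)
          · exact ⟨h1, h2, h3.ge⟩
          · exact ⟨h1, h2, by omega⟩
      · rw [Finset.disjoint_filter]
        rintro k _ ⟨_, h⟩ ⟨_, h'⟩
        omega
    rw [this]
    ring

end cntlemmas

/-- the scale of an index -/
def sc (k : ℕ) : ℕ := padicValNat 2 (k + 1)

lemma le_sc_iff (k s : ℕ) : s ≤ sc k ↔ 2 ^ s ∣ k + 1 := by
  unfold sc
  rw [padicValNat_dvd_iff_le (by omega)]

lemma sc_eq_iff (k s : ℕ) : sc k = s ↔ 2 ^ s ∣ k + 1 ∧ ¬ 2 ^ (s + 1) ∣ k + 1 := by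
  rw [← le_sc_iff, ← le_sc_iff]
  omega

/-- block length at scale `s` -/
def bl (s : ℕ) : ℕ := 4 ^ (s + 1)

lemma bl_pos (s : ℕ) : 0 < bl s := by unfold bl; positivity

lemma two_pow_dvd_bl (s : ℕ) : 2 ^ (s + 1) ∣ bl s := by
  unfold bl
  have : (4 : ℕ) ^ (s + 1) = 2 ^ (s + 1) * 2 ^ (s + 1) := by
    rw [← mul_pow]; norm_num
  rw [this]
  exact Dvd.intro _ rfl

lemma sc_periodic (s T : ℕ) (hT : 2 ^ (s + 1) ∣ T) : Function.Periodic (fun k => sc k = s) T := by
  intro k
  simp only [eq_iff_iff]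
  rw [sc_eq_iff, sc_eq_iff]
  have h1 : 2 ^ s ∣ T := (pow_dvd_pow 2 (Nat.le_succ s)).trans hT
  have e : k + T + 1 = (k + 1) + T := by ring
  rw [e, Nat.dvd_add_left h1, Nat.dvd_add_left hT]

lemma count_sc_le (s : ℕ) : (2 ^ (s + 1)).count (fun k => sc k = s) ≤ 1 := by
  rw [Nat.count_eq_card_filter_range, Finset.card_le_one]
  intro a ha b hb
  rw [Finset.mem_filter, Finset.mem_range, sc_eq_iff] at ha hb
  obtain ⟨ha1, ⟨c, hc⟩, ha3⟩ := ha
  obtain ⟨hb1, ⟨d, hd⟩, hb3⟩ := hb
  have hp : 2 ^ (s + 1) = 2 ^ s * 2 := pow_succ 2 s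
  have hpos : 0 < 2 ^ s := by positivity
  have hc2 : c ≤ 2 := by
    by_contra h
    push Not at h
    nlinarith
  have hd2 : d ≤ 2 := by
    by_contra h
    push Not at h
    nlinarith
  have hc1 : c = 1 := by
    interval_cases c
    · omega
    · rfl
    · exfalso
      apply ha3
      rw [hc, hp]
  have hd1 : d = 1 := by
    interval_cases d
    · omega
    · rfl
    · exfalso
      apply hb3
      rw [hd, hp]
  subst hc1 hd1
  omega

lemma one_le_count_sc (s : ℕ) : 1 ≤ (2 ^ (s + 1)).count (fun k => sc k = s) := by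
  rw [Nat.count_eq_card_filter_range, Nat.one_le_iff_ne_zero, ← Nat.pos_iff_ne_zero,
    Finset.card_pos]
  have hpos : 0 < 2 ^ s := by positivity
  have hp : 2 ^ (s + 1) = 2 ^ s * 2 := pow_succ 2 s
  refine ⟨2 ^ s - 1, ?_⟩
  rw [Finset.mem_filter, Finset.mem_range, sc_eq_iff]
  have e : 2 ^ s - 1 + 1 = 2 ^ s := by omega
  rw [e]
  refine ⟨by omega, dvd_rfl, ?_⟩
  intro h
  have := Nat.le_of_dvd hpos h
  omega

/-- number of indices of scale exactly `s` in a window, lower bound -/
lemma cnt_sc_lower (s a n : ℕ) : n / 2 ^ (s + 1) ≤ cnt (fun k => sc k = s) a (a + n) := by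
  have h1 := cnt_period_lower (fun k => sc k = s) (sc_periodic s _ dvd_rfl) a n
  have h2 := one_le_count_sc s
  calc n / 2 ^ (s + 1) = n / 2 ^ (s + 1) * 1 := by ring
    _ ≤ n / 2 ^ (s + 1) * (2 ^ (s + 1)).count (fun k => sc k = s) := Nat.mul_le_mul_left _ h2
    _ ≤ _ := h1

lemma cnt_sc_upper (s a n : ℕ) : cnt (fun k => sc k = s) a (a + n) ≤ n / 2 ^ (s + 1) + 1 := by
  have h1 := cnt_period_upper (fun k => sc k = s) (by positivity) (sc_periodic s _ dvd_rfl) a n
  have h2 := count_sc_le s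
  calc _ ≤ (n / 2 ^ (s + 1) + 1) * (2 ^ (s + 1)).count (fun k => sc k = s) := h1
    _ ≤ (n / 2 ^ (s + 1) + 1) * 1 := Nat.mul_le_mul_left _ h2
    _ = _ := by ring

/-- number of indices of scale at least `S` in a window -/
lemma cnt_sc_ge_upper (S a n : ℕ) : cnt (fun k => S ≤ sc k) a (a + n) ≤ n / 2 ^ S + 1 := by
  have hper : Function.Periodic (fun k => S ≤ sc k) (2 ^ S) := by
    intro k
    simp only [eq_iff_iff]
    rw [le_sc_iff, le_sc_iff]
    have e : k + 2 ^ S + 1 = (k + 1) + 2 ^ S := by ring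
    rw [e, Nat.dvd_add_left dvd_rfl]
  have h1 := cnt_period_upper (fun k => S ≤ sc k) (by positivity) hper a n
  have h2 : (2 ^ S).count (fun k => S ≤ sc k) ≤ 1 := by
    rw [Nat.count_eq_card_filter_range, Finset.card_le_one]
    intro a ha b hb
    rw [Finset.mem_filter, Finset.mem_range, le_sc_iff] at ha hb
    have ha' := Nat.le_of_dvd (by omega) ha.2
    have hb' := Nat.le_of_dvd (by omega) hb.2
    omega
  calc _ ≤ (n / 2 ^ S + 1) * (2 ^ S).count (fun k => S ≤ sc k) := h1
    _ ≤ (n / 2 ^ S + 1) * 1 := Nat.mul_le_mul_left _ h2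
    _ = _ := by ring

/-- colour-block predicate at scale `s` -/
lemma block_periodic (s c : ℕ) :
    Function.Periodic (fun k => sc k = s ∧ (k / bl s) % 17 = c) (17 * bl s) := by
  intro k
  simp only [eq_iff_iff]
  have h1 := sc_periodic s (17 * bl s) ((two_pow_dvd_bl s).mul_left 17) k
  simp only [eq_iff_iff] at h1
  rw [h1]
  have h2 : (k + 17 * bl s) / bl s = k / bl s + 17 := by
    rw [Nat.add_mul_div_right _ _ (bl_pos s)]
  rw [h2, Nat.add_mod_right]

lemma count_block_le (s c : ℕ) :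
    (17 * bl s).count (fun k => sc k = s ∧ (k / bl s) % 17 = c) ≤ 2 ^ (s + 2) := by
  have hsub : (17 * bl s).count (fun k => sc k = s ∧ (k / bl s) % 17 = c)
      ≤ cnt (fun k => sc k = s) (c * bl s) (c * bl s + bl s) := by
    rw [Nat.count_eq_card_filter_range]
    unfold cnt
    apply Finset.card_le_card
    intro k hk
    rw [Finset.mem_filter, Finset.mem_range] at hk
    obtain ⟨h1, h2, h3⟩ := hk
    have h4 : k / bl s < 17 := Nat.div_lt_of_lt_mul (by rw [mul_comm]; exact h1)
    rw [Nat.mod_eq_of_lt h4] at h3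
    rw [Finset.mem_filter, Finset.mem_Ico]
    refine ⟨⟨?_, ?_⟩, h2⟩
    · rw [← h3]; exact Nat.div_mul_le_self _ _
    · rw [← h3]; exact Nat.lt_div_mul_add (bl_pos s)
  have h2 := cnt_sc_upper s (c * bl s) (bl s)
  have h3 : bl s / 2 ^ (s + 1) = 2 ^ (s + 1) := by
    unfold bl
    have : (4 : ℕ) ^ (s + 1) = 2 ^ (s + 1) * 2 ^ (s + 1) := by
      rw [← mul_pow]; norm_num
    rw [this, Nat.mul_div_cancel_left _ (by positivity)]
  rw [h3] at h2
  have h4 : (1 : ℕ) ≤ 2 ^ (s + 1) := Nat.one_le_two_pow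
  have h5 : (2 : ℕ) ^ (s + 2) = 2 ^ (s + 1) * 2 := pow_succ 2 (s + 1)
  omega

/-- the set of indices whose scale class is `j` and whose block colour is `c` or `d` -/
def colP (J j c d : ℕ) (k : ℕ) : Prop :=
  sc k % J = j ∧ ((k / bl (sc k)) % 17 = c ∨ (k / bl (sc k)) % 17 = d)

instance (J j c d : ℕ) : DecidablePred (colP J j c d) := fun _ => by
  unfold colP; infer_instance

lemma noise_sum (J n : ℕ) :
    (∑ s ∈ range n, (if s + J ≤ n then 2 ^ (s + 3) else 0)) * 2 ^ J ≤ 2 ^ (n + 4) := by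
  by_cases h : n < J
  · have : (∑ s ∈ range n, (if s + J ≤ n then 2 ^ (s + 3) else 0)) = 0 := by
      apply Finset.sum_eq_zero
      intro s _
      rw [if_neg (by omega)]
    rw [this]
    simp
  · push Not at h
    have h1 : (∑ s ∈ range n, (if s + J ≤ n then 2 ^ (s + 3) else 0))
        ≤ ∑ s ∈ range (n + 1 - J), 2 ^ (s + 3) := by
      rw [← Finset.sum_filter]
      apply Finset.sum_le_sum_of_subset
      intro s hs
      rw [Finset.mem_filter, Finset.mem_range] at hs
      rw [Finset.mem_range]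
      omega
    have h2 : ∀ m : ℕ, ∑ s ∈ range m, 2 ^ (s + 3) ≤ 2 ^ (m + 3) := by
      intro m
      induction m with
      | zero => simp
      | succ m ih =>
        rw [Finset.sum_range_succ]
        have : (2 : ℕ) ^ (m + 1 + 3) = 2 ^ (m + 3) * 2 := by rw [← pow_succ]
        omega
    calc _ ≤ (∑ s ∈ range (n + 1 - J), 2 ^ (s + 3)) * 2 ^ J := Nat.mul_le_mul_right _ h1
      _ ≤ 2 ^ (n + 1 - J + 3) * 2 ^ J := Nat.mul_le_mul_right _ (h2 _)
      _ = 2 ^ (n + 4) := by
        rw [← pow_add]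
        congr 1
        omega

lemma struct_numeric (F J σ m p L NS : ℕ) (hF : 6 ≤ F) (hJ : 16 * F ≤ 2 ^ J) (hm : 64 * F ≤ m)
    (hmb : m ≤ p) (hbF : p ≤ F * m) (hL' : L = 4 ^ (σ + 1)) (hp1 : 2 * L ≤ p)
    (hp3 : p < 8 * L) (hσ2 : 2 ≤ σ) (hnoise : NS * 2 ^ J ≤ 2 ^ (σ + 4)) :
    NS + (m / 2 ^ (σ + J) + 1) < min m L / 2 ^ (σ + 1) := by
  have hJ7 : 2 ^ 6 ≤ 2 ^ J := by omega
  have hJ6 : 6 ≤ J := by
    exact (Nat.pow_le_pow_iff_right (by norm_num)).1 hJ7
  have e1 : (4 : ℕ) ^ (σ + 1) = 2 ^ (σ + 1) * 2 ^ (σ + 1) := by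
    rw [← mul_pow]; norm_num
  have e2 : (2 : ℕ) ^ (σ + 4) = 8 * 2 ^ (σ + 1) := by ring
  have e3 : (2 : ℕ) ^ (σ + J) = 2 ^ (σ + 1) * 2 ^ (J - 1) := by
    rw [← pow_add]; congr 1; omega
  have e4 : (2 : ℕ) ^ J = 2 * 2 ^ (J - 1) := by
    rw [← pow_succ']; congr 1; omega
  have hZ8 : 8 ≤ 2 ^ (σ + 1) := by
    calc 8 = 2 ^ 3 := by norm_num
      _ ≤ 2 ^ (σ + 1) := Nat.pow_le_pow_right (by norm_num) (by omega)
  have hY : 32 ≤ 2 ^ (J - 1) := by
    calc 32 = 2 ^ 5 := by norm_num
      _ ≤ 2 ^ (J - 1) := Nat.pow_le_pow_right (by norm_num) (by omega)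
  rw [e2, e4] at hnoise
  rw [e4] at hJ
  rw [e3]
  rw [e1] at hL'
  generalize 2 ^ (σ + 1) = Z at *
  generalize 2 ^ (J - 1) = Y at *
  clear e1 e2 e3 e4 hJ7 hJ6
  have hZpos : 0 < Z := by omega
  have hm8 : 8 * Z ≤ m := by
    by_contra h
    push Not at h
    have h1 : 2 * (Z * Z) ≤ F * m := by rw [← hL']; omega
    have h2 : 64 * F * m ≤ m * m := Nat.mul_le_mul_right _ hm
    have h3 : m * m < (8 * Z) * (8 * Z) := Nat.mul_lt_mul'' h h
    have h4 : 64 * (F * m) < 64 * (Z * Z) := by
      calc 64 * (F * m) = 64 * F * m := by ring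
        _ ≤ m * m := h2
        _ < (8 * Z) * (8 * Z) := h3
        _ = 64 * (Z * Z) := by ring
    omega
  obtain ⟨n1, hn1⟩ : ∃ n1, n1 = min m L := ⟨_, rfl⟩
  rw [← hn1]
  have hn8 : 8 * Z ≤ n1 := by
    rw [hn1, le_min_iff]
    refine ⟨hm8, ?_⟩
    rw [hL']
    exact Nat.mul_le_mul_right _ hZ8
  have h1 : m ≤ 8 * n1 := by
    rw [hn1]
    rcases le_total m L with h | h
    · rw [min_eq_left h]; omega
    · rw [min_eq_right h]; omega
  have hnJ : 16 * (Z * Z) ≤ n1 * Y := by
    rcases le_total m L with h | h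
    · have : n1 = m := by rw [hn1]; exact min_eq_left h
      rw [this]
      have h1 : 2 * (Z * Z) ≤ F * m := by rw [← hL']; omega
      have h2 : 8 * F ≤ Y := by omega
      calc 16 * (Z * Z) = 8 * (2 * (Z * Z)) := by ring
        _ ≤ 8 * (F * m) := Nat.mul_le_mul_left _ h1
        _ = m * (8 * F) := by ring
        _ ≤ m * Y := Nat.mul_le_mul_left _ h2
    · have : n1 = L := by rw [hn1]; exact min_eq_right h
      rw [this, hL']
      calc 16 * (Z * Z) ≤ Y * (Z * Z) := Nat.mul_le_mul_right _ (by omega)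
        _ = _ := by ring
  obtain ⟨x, hx⟩ : ∃ x, x = n1 / Z := ⟨_, rfl⟩
  rw [← hx]
  have hx8 : 8 ≤ x := by
    rw [hx, Nat.le_div_iff_mul_le hZpos]
    exact hn8
  have hxn : n1 < x * Z + Z := by rw [hx]; exact Nat.lt_div_mul_add hZpos
  have hns : 2 * NS ≤ x := by
    have hx1 : Z ≤ x * Z := Nat.le_mul_of_pos_left _ (by omega)
    have h2 : n1 ≤ 2 * (x * Z) := by omega
    have h3 : 16 * (Z * Z) ≤ 2 * (x * Z) * Y := hnJ.trans (Nat.mul_le_mul_right _ h2)
    have h4 : 8 * Z ≤ x * Y := by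
      have : (8 * Z) * Z ≤ (x * Y) * Z := by
        have e : 2 * (x * Z) * Y = 2 * ((x * Y) * Z) := by ring
        have e' : 16 * (Z * Z) = 2 * ((8 * Z) * Z) := by ring
        omega
      exact Nat.le_of_mul_le_mul_right this hZpos
    have h5 : (2 * NS) * Y ≤ x * Y := by
      have e : NS * (2 * Y) = (2 * NS) * Y := by ring
      omega
    exact Nat.le_of_mul_le_mul_right h5 (by omega)
  have hup : 4 * (m / (Z * Y)) ≤ x := by
    rw [hx, Nat.le_div_iff_mul_le hZpos]
    have h4 : m / (Z * Y) * (Z * Y) ≤ m := Nat.div_mul_le_self _ _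
    generalize m / (Z * Y) = y at *
    have h5 : y * Z * 32 ≤ 8 * n1 := by
      calc y * Z * 32 ≤ y * Z * Y := Nat.mul_le_mul_left _ hY
        _ = y * (Z * Y) := by ring
        _ ≤ m := h4
        _ ≤ 8 * n1 := h1
    have e : y * Z * 32 = 8 * (4 * y * Z) := by ring
    omega
  omega

/-- **Structural lemma.** -/
theorem struct_lemma (F J a b m : ℕ) (hF : 6 ≤ F) (hJ : 16 * F ≤ 2 ^ J) (hm : 64 * F ≤ m)
    (hmb : m ≤ b - a) (hbF : b - a ≤ F * m) (hab : a ≤ b) :
    ∃ j c d, cnt (colP J j c d) b (b + m) < cnt (colP J j c d) a (a + m) := by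
  -- choose the scale
  obtain ⟨p, rfl⟩ := Nat.exists_eq_add_of_le hab
  have hp : a + p - a = p := by omega
  rw [hp] at hmb hbF
  clear hp hab
  have hp2 : 192 ≤ p / 2 := by omega
  set τ := Nat.log 4 (p / 2) with hτ
  have hτ1 : 4 ^ τ ≤ p / 2 := Nat.pow_log_le_self 4 (by omega)
  have hτ2 : p / 2 < 4 ^ (τ + 1) := Nat.lt_pow_succ_log_self (by norm_num) _
  have hτ3 : 3 ≤ τ := by
    by_contra h
    push Not at h
    have : 4 ^ (τ + 1) ≤ 4 ^ 3 := Nat.pow_le_pow_right (by norm_num) (by omega)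
    omega
  obtain ⟨σ, hσ⟩ : ∃ σ, τ = σ + 1 := ⟨τ - 1, by omega⟩
  rw [hσ] at hτ1 hτ2 hτ3
  clear_value τ
  subst hσ
  clear hτ
  set L := bl σ with hL
  have hL' : L = 4 ^ (σ + 1) := rfl
  have hLpos : 0 < L := bl_pos σ
  have hp1 : 2 * L ≤ p := by omega
  have hp3 : p < 8 * L := by
    have : 4 ^ (σ + 1 + 1) = L * 4 := by rw [hL', ← pow_succ]
    omega
  have hσ2 : 2 ≤ σ := by omega
  set i := a / L with hi
  have hai : i * L ≤ a := Nat.div_mul_le_self _ _
  have hai2 : a < i * L + L := Nat.lt_div_mul_add hLpos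
  set j := σ % J with hj
  set c := i % 17 with hc
  set d := (i + 1) % 17 with hd
  refine ⟨j, c, d, ?_⟩
  set P := colP J j c d with hP
  -- per-scale comparison
  have hlow : ∀ s ∈ range σ, cnt (fun k => P k ∧ sc k = s) (a + p) (a + p + m) ≤
      cnt (fun k => P k ∧ sc k = s) a (a + m) + (if s + J ≤ σ then 2 ^ (s + 3) else 0) := by
    intro s hs
    rw [Finset.mem_range] at hs
    by_cases hsj : s % J = j
    · have hsJ : s + J ≤ σ := by
        rw [hj] at hsj
        have h1 : J ∣ σ - s := (Nat.modEq_iff_dvd' hs.le).1 hsj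
        have h2 := Nat.le_of_dvd (by omega) h1
        omega
      rw [if_pos hsJ]
      let Ps : ℕ → Prop := fun k => sc k = s ∧ ((k / bl s) % 17 = c ∨ (k / bl s) % 17 = d)
      have hPs : ∀ k, (P k ∧ sc k = s) ↔ Ps k := by
        intro k
        simp only [hP, colP, Ps]
        constructor
        · rintro ⟨⟨h1, h2⟩, h3⟩
          rw [h3] at h2
          exact ⟨h3, h2⟩
        · rintro ⟨h1, h2⟩
          rw [h1]
          exact ⟨⟨hsj, h2⟩, rfl⟩
      have hc1 : ∀ u v, cnt (fun k => P k ∧ sc k = s) u v = cnt Ps u v := by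
        intro u v
        exact cnt_congr _ _ (fun k _ _ => hPs k)
      rw [hc1, hc1]
      have hper : Function.Periodic Ps (17 * bl s) := by
        intro k
        have h1 := block_periodic s c k
        have h2 := block_periodic s d k
        simp only [eq_iff_iff] at h1 h2
        simp only [eq_iff_iff, Ps]
        constructor
        · rintro ⟨h3, h4 | h4⟩
          · have := h1.1 ⟨h3, h4⟩
            exact ⟨this.1, Or.inl this.2⟩
          · have := h2.1 ⟨h3, h4⟩
            exact ⟨this.1, Or.inr this.2⟩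
        · rintro ⟨h3, h4 | h4⟩
          · have := h1.2 ⟨h3, h4⟩
            exact ⟨this.1, Or.inl this.2⟩
          · have := h2.2 ⟨h3, h4⟩
            exact ⟨this.1, Or.inr this.2⟩
      have hcount : (17 * bl s).count Ps ≤ 2 ^ (s + 3) := by
        have h1 := count_block_le s c
        have h2 := count_block_le s d
        rw [Nat.count_eq_card_filter_range] at h1 h2
        have h0 : (17 * bl s).count Ps = ((range (17 * bl s)).filter Ps).card :=
          Nat.count_eq_card_filter_range _ _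
        rw [h0]
        have h3 : ((range (17 * bl s)).filter Ps) ⊆
            ((range (17 * bl s)).filter (fun k => sc k = s ∧ (k / bl s) % 17 = c)) ∪
            ((range (17 * bl s)).filter (fun k => sc k = s ∧ (k / bl s) % 17 = d)) := by
          intro k hk
          rw [Finset.mem_filter] at hk
          rw [Finset.mem_union, Finset.mem_filter, Finset.mem_filter]
          rcases hk.2.2 with h | h
          · exact Or.inl ⟨hk.1, hk.2.1, h⟩
          · exact Or.inr ⟨hk.1, hk.2.1, h⟩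
        have h4 := (Finset.card_le_card h3).trans (Finset.card_union_le _ _)
        have h5 : (2 : ℕ) ^ (s + 3) = 2 ^ (s + 2) * 2 := pow_succ 2 (s + 2)
        rw [h5]
        exact h4.trans (by omega)
      have := cnt_period_diff Ps (T := 17 * bl s) (by have := bl_pos s; positivity) hper a (a + p) m
      omega
    · have : cnt (fun k => P k ∧ sc k = s) (a + p) (a + p + m) = 0 := by
        apply cnt_eq_zero
        rintro k _ _ ⟨h1, h2⟩
        apply hsj
        rw [← h2]
        exact h1.1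
      rw [this]
      exact Nat.zero_le _
  -- top scale in the first window
  set n1 := min m L with hn1
  have htop1 : n1 / 2 ^ (σ + 1) ≤ cnt (fun k => P k ∧ σ ≤ sc k) a (a + m) := by
    calc n1 / 2 ^ (σ + 1) ≤ cnt (fun k => sc k = σ) a (a + n1) := cnt_sc_lower σ a n1
      _ ≤ cnt (fun k => P k ∧ σ ≤ sc k) a (a + n1) := by
        apply cnt_mono
        intro k h1 h2 h3
        refine ⟨⟨by rw [h3], ?_⟩, h3.ge⟩
        rw [h3]
        have hk1 : i * L ≤ k := by omega
        have hk2 : k < (i + 2) * L := by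
          have : n1 ≤ L := min_le_right _ _
          have e : (i + 2) * L = i * L + L + L := by ring
          omega
        have h4 : i ≤ k / L := (Nat.le_div_iff_mul_le hLpos).2 hk1
        have h5 : k / L < i + 2 := (Nat.div_lt_iff_lt_mul hLpos).2 hk2
        have h6 : k / L = i ∨ k / L = i + 1 := by omega
        rcases h6 with h | h
        · left; rw [← hL, h]
        · right; rw [← hL, h]
      _ ≤ _ := by
        apply cnt_mono_right
        have : n1 ≤ m := min_le_left _ _
        omega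
  -- top scale in the second window
  have htop2 : cnt (fun k => P k ∧ σ ≤ sc k) (a + p) (a + p + m) ≤ m / 2 ^ (σ + J) + 1 := by
    calc cnt (fun k => P k ∧ σ ≤ sc k) (a + p) (a + p + m)
        ≤ cnt (fun k => σ + J ≤ sc k) (a + p) (a + p + m) := by
          apply cnt_mono
          intro k h1 h2 h3
          obtain ⟨⟨h4, h5⟩, h6⟩ := h3
          by_contra h7
          push Not at h7
          have h8 : sc k = σ := by
            rw [hj] at h4
            by_contra h9
            have h10 : J ∣ sc k - σ := (Nat.modEq_iff_dvd' h6).1 h4.symm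
            have := Nat.le_of_dvd (by omega) h10
            omega
          rw [h8, ← hL] at h5
          have hk1 : (i + 2) * L ≤ k := by
            have e : (i + 2) * L = i * L + 2 * L := by ring
            omega
          have hk2 : k < (i + 17) * L := by
            have e : (i + 17) * L = i * L + L + 16 * L := by ring
            omega
          have h9 : i + 2 ≤ k / L := (Nat.le_div_iff_mul_le hLpos).2 hk1
          have h10 : k / L < i + 17 := (Nat.div_lt_iff_lt_mul hLpos).2 hk2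
          omega
      _ ≤ m / 2 ^ (σ + J) + 1 := cnt_sc_ge_upper _ _ _
  -- assemble
  have hA := cnt_split_scale P sc a (a + m) σ
  have hB := cnt_split_scale P sc (a + p) (a + p + m) σ
  have hsum := Finset.sum_le_sum hlow
  rw [Finset.sum_add_distrib] at hsum
  have hnoise := noise_sum J σ
  set NS := ∑ s ∈ range σ, (if s + J ≤ σ then 2 ^ (s + 3) else 0) with hNS
  set x := n1 / 2 ^ (σ + 1) with hx
  have hnum := struct_numeric F J σ m p L NS hF hJ hm hmb hbF hL' hp1 hp3 hσ2 hnoise
  rw [hA, hB]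
  have hnum' : NS + (m / 2 ^ (σ + J) + 1) < x := hnum
  omega

end MPbbea99
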